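import Pool.Agent.Lib.MP_45c416_gt.C.Defs

open Set Filter Topology

namespace Pool.Agent.Lib.MP_45c416_gt.C

variable {Y : Type*} [TopologicalSpace Y] [CompactSpace Y]

/-- **Piece G1.** A closed relation between a nonempty space `X` and a scattered compact space `Y` that projects onto `X`
contains `U × {y₀}` for some nonempty open `U`.

Proof. Zorn (`zorn_superset`): a minimal closed `Y' ⊆ Y` such that `∀ x, ∃ y ∈ Y', (x, y) ∈ P` (chains: for each `x` the sets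
`{y ∈ Yᵢ | (x, y) ∈ P}` are nonempty compact and directed, `IsCompact.nonempty_sInter_of_directedOn...`). Isolated point `y₀ ∈ Y'`:
`Y' \ {y₀}` is closed, so by minimality the set `U` of `x` with no `y ∈ Y' \ {y₀}`, `(x, y) ∈ P`, is nonempty; it is open
(projection along a compact space is closed, `isClosedMap_fst_of_compactSpace`) and `(x, y₀) ∈ P` for `x ∈ U`. -/
theorem exists_open_const {X : Type*} [TopologicalSpace X] [Nonempty X] (hY : IsScattered Y)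
    (P : Set (X × Y)) (hP : IsClosed P) (hsurj : ∀ x, ∃ y, (x, y) ∈ P) :
    ∃ U : Set X, IsOpen U ∧ U.Nonempty ∧ ∃ y₀, ∀ x ∈ U, (x, y₀) ∈ P := by
  obtain ⟨Y', -, hmin⟩ := zorn_superset_nonempty
    {Y' : Set Y | IsClosed Y' ∧ ∀ x, ∃ y ∈ Y', (x, y) ∈ P} (by
      intro c hc hchain hne
      refine ⟨⋂₀ c, ⟨isClosed_sInter fun s hs => (hc hs).1, fun x => ?_⟩,
        fun s hs => sInter_subset_of_mem hs⟩
      haveI : Nonempty c := hne.to_subtype
      have hPx : IsClosed {y : Y | (x, y) ∈ P} := hP.preimage (by fun_prop)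
      have hcl : ∀ i : c, IsClosed ((i : Set Y) ∩ {y : Y | (x, y) ∈ P}) :=
        fun i => (hc i.2).1.inter hPx
      have h := IsCompact.nonempty_iInter_of_directed_nonempty_isCompact_isClosed
        (fun i : c => (i : Set Y) ∩ {y : Y | (x, y) ∈ P}) ?_ ?_ ?_ hcl
      · obtain ⟨y, hy⟩ := h
        rw [mem_iInter] at hy
        obtain ⟨s0, hs0⟩ := hne
        exact ⟨y, fun s hs => (hy ⟨s, hs⟩).1, (hy ⟨s0, hs0⟩).2⟩
      · intro i j
        rcases hchain.total i.2 j.2 with h | h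
        · exact ⟨i, Subset.rfl, inter_subset_inter_left _ h⟩
        · exact ⟨j, inter_subset_inter_left _ h, Subset.rfl⟩
      · intro i
        obtain ⟨y, hy, hy'⟩ := (hc i.2).2 x
        exact ⟨y, hy, hy'⟩
      · intro i
        exact (hcl i).isCompact) univ ⟨isClosed_univ, fun x => by
          obtain ⟨y, hy⟩ := hsurj x
          exact ⟨y, mem_univ y, hy⟩⟩
  obtain ⟨hcl, hsur⟩ := hmin.prop
  have hne : Y'.Nonempty := by
    obtain ⟨y, hy, -⟩ := hsur (Classical.arbitrary X)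
    exact ⟨y, hy⟩
  obtain ⟨y₀, hy₀, U, hU, hUy⟩ := hY Y' hne
  have hcl2 : IsClosed (Y' ∩ Uᶜ) := hcl.inter hU.isClosed_compl
  have hnot : ¬ ∀ x, ∃ y ∈ Y' ∩ Uᶜ, (x, y) ∈ P := by
    intro hall
    have h1 := hmin.le_of_le (show Y' ∩ Uᶜ ∈ {Y' : Set Y | IsClosed Y' ∧ ∀ x, ∃ y ∈ Y', (x, y) ∈ P}
      from ⟨hcl2, hall⟩) inter_subset_left
    have h2 : y₀ ∈ U ∩ Y' := by
      rw [hUy]
      rfl
    exact (h1 hy₀).2 h2.1
  push Not at hnot
  obtain ⟨x₀, hx₀⟩ := hnot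
  refine ⟨{x | ∀ y ∈ Y' ∩ Uᶜ, (x, y) ∉ P}, ?_, ⟨x₀, hx₀⟩, y₀, ?_⟩
  · have h1 : IsClosed (Prod.fst '' (P ∩ (univ ×ˢ (Y' ∩ Uᶜ)) : Set (X × Y))) :=
      isClosedMap_fst_of_compactSpace _ (hP.inter (isClosed_univ.prod hcl2))
    have h2 : {x | ∀ y ∈ Y' ∩ Uᶜ, (x, y) ∉ P} =
        (Prod.fst '' (P ∩ (univ ×ˢ (Y' ∩ Uᶜ)) : Set (X × Y)))ᶜ := by
      ext x
      rw [mem_compl_iff, mem_ofPred_eq]
      constructor
      · rintro hx ⟨⟨a, b⟩, ⟨hab, -, hb⟩, rfl⟩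
        exact hx b hb hab
      · intro hx y hy hxy
        exact hx ⟨(x, y), ⟨hxy, mem_univ _, hy⟩, rfl⟩
    rw [h2]
    exact h1.isOpen_compl
  · intro x hx
    obtain ⟨y, hy, hxy⟩ := hsur x
    have h1 : y ∈ U := by
      by_contra hyU
      exact hx y ⟨hy, hyU⟩ hxy
    have h2 : y ∈ U ∩ Y' := ⟨h1, hy⟩
    rw [hUy, mem_singleton_iff] at h2
    rwa [h2] at hxy

/-- **Piece G2.** -/
theorem isClosed_ArcS {Q : Set (Circle × Y)} (hQ : IsClosed Q) (t : ℝ) : IsClosed (ArcS Q t) := by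
  unfold ArcS
  simp only [setOf_forall]
  exact isClosed_biInter fun θ _ => hQ.preimage (by fun_prop)

/-- **Piece G3.** Growth: if all starting points of arcs of length `t` are coded then a longer arc is coded.

Proof: `exists_open_const` for `P = ArcS Q t`: `U × {y₀} ⊆ ArcS Q t`; pick `u ∈ U` and `η > 0` with `u * exp φ ∈ U` for `φ ∈ [0, η]`;
then `(u, y₀) ∈ ArcS Q (t + η)`: for `θ ∈ [0, t + η]` write `θ = φ + θ'` with `φ ∈ [0, η]`, `θ' ∈ [0, t]`. -/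
theorem exists_longer (hY : IsScattered Y) {Q : Set (Circle × Y)} (hQ : IsClosed Q) {t : ℝ}
    (ht : 0 ≤ t) (h : ∀ w : Circle, ∃ y, (w, y) ∈ ArcS Q t) :
    ∃ t' > t, (ArcS Q t').Nonempty := by
  obtain ⟨U, hU, ⟨u, hu⟩, y₀, hy⟩ := exists_open_const hY (ArcS Q t) (isClosed_ArcS hQ t) h
  have hcont : Continuous fun φ : ℝ => u * Circle.exp φ := by fun_prop
  have hmem : {φ : ℝ | u * Circle.exp φ ∈ U} ∈ 𝓝 (0 : ℝ) := by
    apply (hU.preimage hcont).mem_nhds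
    change u * Circle.exp 0 ∈ U
    rwa [Circle.exp_zero, mul_one]
  obtain ⟨η, hη, hball⟩ := Metric.mem_nhds_iff.1 hmem
  refine ⟨t + η / 2, by linarith, (u, y₀), ?_⟩
  intro θ hθ
  have h1 : u * Circle.exp (min θ (η / 2)) ∈ U := by
    apply hball
    rw [Metric.mem_ball, Real.dist_eq, sub_zero, abs_of_nonneg (le_min hθ.1 (by linarith))]
    exact lt_of_le_of_lt (min_le_right _ _) (by linarith)
  have h2 := hy _ h1 (θ - min θ (η / 2)) ⟨by linarith [min_le_left θ (η / 2)], by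
    rcases le_total θ (η / 2) with h3 | h3
    · rw [min_eq_left h3]
      linarith
    · rw [min_eq_right h3]
      linarith [hθ.2]⟩
  dsimp only at h2 ⊢
  rw [mul_assoc, ← Circle.exp_add] at h2
  have h3 : min θ (η / 2) + (θ - min θ (η / 2)) = θ := by ring
  rwa [h3] at h2

/-- **Piece G4.** There is a maximal arc length in `[0, 2π]`.

Proof: `{(t, q) ∈ Icc 0 (2π) × (Circle × Y) | q ∈ ArcS Q t}` is closed (if `(tᵢ, qᵢ) → (t, q)` and `0 ≤ θ < t` then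
`θ ≤ tᵢ` eventually; for `θ = t` use closedness again; or: `q ∈ ArcS Q t ↔ ∀ r ∈ Icc 0 1, (q.1 * exp (r * t), q.2) ∈ Q`
for `t ≥ 0`), hence compact, so its projection to `t` has a maximum. -/
theorem exists_max {Q : Set (Circle × Y)} (hQ : IsClosed Q) (hne : Q.Nonempty) :
    ∃ t ∈ Icc (0 : ℝ) (2 * Real.pi), (ArcS Q t).Nonempty ∧
      ∀ t' ∈ Icc (0 : ℝ) (2 * Real.pi), t < t' → ArcS Q t' = ∅ := by
  have hpi : 0 ≤ 2 * Real.pi := by positivity
  have hC : IsClosed {x : ℝ × (Circle × Y) | x.1 ∈ Icc (0 : ℝ) (2 * Real.pi) ∧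
      x.2 ∈ ArcS Q x.1} := by
    have h1 : {x : ℝ × (Circle × Y) | x.1 ∈ Icc (0 : ℝ) (2 * Real.pi) ∧ x.2 ∈ ArcS Q x.1} =
        {x : ℝ × (Circle × Y) | x.1 ∈ Icc (0 : ℝ) (2 * Real.pi)} ∩
          ⋂ r ∈ Icc (0 : ℝ) 1, {x : ℝ × (Circle × Y) |
            (x.2.1 * Circle.exp (r * x.1), x.2.2) ∈ Q} := by
      ext ⟨t, w, y⟩
      simp only [mem_inter_iff, mem_ofPred_eq, mem_iInter]
      constructor
      · rintro ⟨ht, hq⟩
        refine ⟨ht, fun r hr => ?_⟩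
        exact hq (r * t) ⟨mul_nonneg hr.1 ht.1, by nlinarith [hr.1, hr.2, ht.1]⟩
      · rintro ⟨ht, hq⟩
        refine ⟨ht, fun θ hθ => ?_⟩
        rcases eq_or_lt_of_le ht.1 with h0 | h0
        · rw [← h0] at hθ hq
          have h2 : θ = 0 := le_antisymm hθ.2 hθ.1
          have := hq 0 ⟨le_rfl, zero_le_one⟩
          rw [mul_zero] at this
          rw [h2]
          exact this
        · have := hq (θ / t) ⟨div_nonneg hθ.1 h0.le, (div_le_one h0).2 hθ.2⟩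
          rwa [div_mul_cancel₀ _ h0.ne'] at this
    rw [h1]
    refine IsClosed.inter (isClosed_Icc.preimage continuous_fst) ?_
    exact isClosed_biInter fun r _ => hQ.preimage (by fun_prop)
  have hcpt : IsCompact {x : ℝ × (Circle × Y) | x.1 ∈ Icc (0 : ℝ) (2 * Real.pi) ∧
      x.2 ∈ ArcS Q x.1} := by
    have h2 : IsCompact (Icc (0 : ℝ) (2 * Real.pi) ×ˢ (univ : Set (Circle × Y))) :=
      isCompact_Icc.prod isCompact_univ
    refine h2.of_isClosed_subset hC ?_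
    rintro x ⟨hx, -⟩
    exact ⟨hx, mem_univ _⟩
  obtain ⟨q, hq⟩ := hne
  have hne' : (Prod.fst '' {x : ℝ × (Circle × Y) | x.1 ∈ Icc (0 : ℝ) (2 * Real.pi) ∧
      x.2 ∈ ArcS Q x.1}).Nonempty := by
    refine ⟨0, (0, q), ⟨⟨le_rfl, hpi⟩, ?_⟩, rfl⟩
    intro θ hθ
    have h2 : θ = 0 := le_antisymm hθ.2 hθ.1
    rw [h2, Circle.exp_zero, mul_one]
    exact hq
  obtain ⟨t, ht, htmax⟩ := (hcpt.image continuous_fst).exists_isGreatest hne'
  obtain ⟨⟨t0, q0⟩, ⟨h1, h2⟩, rfl⟩ := ht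
  refine ⟨t0, h1, ⟨q0, h2⟩, fun t' ht' hlt => ?_⟩
  by_contra hcon
  obtain ⟨q', hq'⟩ := nonempty_iff_ne_empty.2 hcon
  exact absurd (htmax ⟨(t', q'), ⟨ht', hq'⟩, rfl⟩) (not_le.2 hlt)

end Pool.Agent.Lib.MP_45c416_gt.C
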