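import Pool.Agent.Lib.MP_45c416_gt.C.Defs

open Set Filter Topology

namespace Pool.Agent.Lib.MP_45c416_gt.C

/-- The string `σ` followed by zeros lies in the cylinder of `σ`. -/
theorem Mcl_cyl (σ : List Bool) : Cyl σ (fun i => σ.getD i false) := by
  unfold Cyl rs
  apply List.ext_getElem
  · simp
  · intro i h1 h2
    simp [h2]

theorem Mcl_length (α : R2) (n : ℕ) : (rs α n).length = n := by
  simp [rs]

theorem Mcl_cyl_rs (α : R2) (n : ℕ) : Cyl (rs α n) α := by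
  unfold Cyl
  rw [Mcl_length]

/-- Cylinders are unbounded. -/
theorem Mcl_unb (S : Sys) (hS : S.Rich) (σ : List Bool) (b : R2) :
    ∃ α, Cyl σ α ∧ S.lt b α := by
  obtain ⟨α, h1, h2, _⟩ := hS (fun σ i => σ.getD i false) (fun _ => 1) (fun _ => b) σ Mcl_cyl
  exact ⟨α, h1, h2 0⟩

theorem Mcl_asymm (S : Sys) {a b : R2} (h : S.lt a b) (h' : S.lt b a) : False := by
  have := S.wo
  exact asymm_of S.lt h h'

/-- The levels: `v` is at least `A - e` somewhere and at least `A + e` only on a bounded set. -/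
theorem Mcl_level (S : Sys) (hS : S.Rich) (v : R2 → ℝ) (C : ℝ) (h0 : ∀ α, 0 ≤ v α)
    (hC : ∀ α, v α ≤ C) (σ : List Bool) (e : ℝ) (he : 0 < e) :
    ∃ (x b : R2), Cyl σ x ∧ ∀ α, Cyl σ α → v x + 2 * e ≤ v α → S.lt α b := by
  set R : Set ℝ := {r | ∃ b, ∀ α, Cyl σ α → r ≤ v α → S.lt α b} with hR
  have hne : R.Nonempty := by
    refine ⟨C + 1, fun _ => false, ?_⟩
    intro α _ h
    have := hC α
    linarith
  have hbd : BddBelow R := by
    refine ⟨0, ?_⟩
    rintro r ⟨b, hb⟩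
    by_contra hr
    push Not at hr
    obtain ⟨α, h1, h2⟩ := Mcl_unb S hS σ b
    exact Mcl_asymm S h2 (hb α h1 (le_trans hr.le (h0 α)))
  have hlow : sInf R - e ∉ R := by
    intro h
    have := csInf_le hbd h
    linarith
  obtain ⟨r, hr, hr'⟩ := exists_lt_of_csInf_lt hne (show sInf R < sInf R + e by linarith)
  obtain ⟨b, hb⟩ := hr
  have hx : ∃ x, Cyl σ x ∧ sInf R - e ≤ v x := by
    by_contra hcon
    push Not at hcon
    apply hlow
    refine ⟨fun _ => false, ?_⟩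
    intro α h1 h2
    have := hcon α h1
    linarith
  obtain ⟨x, hx1, hx2⟩ := hx
  refine ⟨x, b, hx1, ?_⟩
  intro α h1 h2
  apply hb α h1
  linarith

/-- **Piece M.** Main combinatorial lemma.

Proof. Call `A ⊆ R2` bounded if `∃ b, ∀ x ∈ A, S.lt x b`.  `astar σ = sInf {r | {α | Cyl σ α ∧ r ≤ v α} bounded}`.
This set of `r` contains `C + 1`, is bounded below by `0` (for `r < 0` the set is `{α | Cyl σ α}`, unbounded by
`Rich` applied with any `D` and `a n = b`).  Choose `D σ` with `Cyl σ (D σ)` and `astar σ - 2^{-|σ|} ≤ v (D σ)` (the set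
`{α | Cyl σ α ∧ astar σ - 2^{-|σ|} ≤ v α}` is unbounded, so nonempty) and a bound `b σ` of
`{α | Cyl σ α ∧ astar σ + 2^{-|σ|} ≤ v α}`. Apply `Rich` to `D`, `s σ = z (D σ)`, `a` = an enumeration
(`Encodable`) of all `b σ`, and `σ₀`: for `σ = rs α n` (length `n`, `Cyl σ α`): not `v α ≥ astar σ + 2^{-n}`
(else `lt α (b σ)` and `lt (b σ) α`), so `v α ≤ astar σ + 2^{-n} ≤ v (D σ) + 2 * 2^{-n}`. -/
theorem Sys.mcl (S : Sys) (hS : S.Rich) (v : R2 → ℝ) (C : ℝ) (h0 : ∀ α, 0 ≤ v α)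
    (hC : ∀ α, v α ≤ C) (z : R2 → Circle) (σ₀ : List Bool) :
    ∃ (α : R2) (D : List Bool → R2), Cyl σ₀ α ∧ (∀ σ, Cyl σ (D σ)) ∧
      (∀ n, v α ≤ v (D (rs α n)) + 2 * (1 / 2) ^ n) ∧ S.Wild D (fun σ => z (D σ)) α := by
  have hlev := fun σ : List Bool =>
    Mcl_level S hS v C h0 hC σ ((1 / 2 : ℝ) ^ σ.length) (by positivity)
  choose D b hD hb using hlev
  obtain ⟨α, h1, h2, h3⟩ := hS D (fun σ => z (D σ))
    (fun n => ((Encodable.decode n : Option (List Bool)).map b).getD (fun _ => false)) σ₀ hD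
  refine ⟨α, D, h1, hD, ?_, h3⟩
  intro n
  by_contra hcon
  push Not at hcon
  have h4 := hb (rs α n) α (Mcl_cyl_rs α n) (by rw [Mcl_length]; exact hcon.le)
  have h5 := h2 (Encodable.encode (rs α n))
  rw [Encodable.encodek] at h5
  exact Mcl_asymm S h4 h5

end Pool.Agent.Lib.MP_45c416_gt.C
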