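import Pool.Agent.Lib.MP_45c416_gt.C.EE

open Set Filter Topology

namespace Pool.Agent.Lib.MP_45c416_gt.C

variable {S : Sys} {Z : Type*} [TopologicalSpace Z] [CompactSpace Z] {Y : ℕ → Type*}
  [∀ n, TopologicalSpace (Y n)]

theorem Coding.I_mono (c : Coding S Z Y) {k l : ℕ} (h : k ≤ l) : c.I k ⊆ c.I l :=
  fun _ hβ z z' h1 h2 h3 => hβ z z' h1 h2 (c.near_mono k l z z' h h3)

/-- **Piece S1.** Every coordinate is separated at some scale. Proof: otherwise choose `(z k, z' k)` with
`p = 1`, `p = -1` at `β`, `near k`; a cluster point `(z, z')` in the compact `Z × Z` satisfies `near k z z'` for all `k`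
(`near_closed`, `near_mono`), so `z = z'`, but `p z β = 1`, `p z' β = -1` (`c.p_cont`).
(Or: the closed sets `{(z, z') | p z β = 1 ∧ p z' β = -1 ∧ near k z z'}` are decreasing with empty intersection.) -/
theorem Coding.I_cover (c : Coding S Z Y) (β : R2) : ∃ k, β ∈ c.I k := by
  by_contra hcon
  push Not at hcon
  let T : ℕ → Set (Z × Z) := fun k =>
    {q | c.p q.1 β = 1 ∧ c.p q.2 β = -1 ∧ c.near k q.1 q.2}
  have hβ : Continuous fun z => c.p z β := (continuous_apply β).comp c.p_cont
  have hcl : ∀ k, IsClosed (T k) := by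
    intro k
    have h1 : IsClosed {q : Z × Z | c.p q.1 β = 1} :=
      isClosed_eq (hβ.comp continuous_fst) continuous_const
    have h2 : IsClosed {q : Z × Z | c.p q.2 β = -1} :=
      isClosed_eq (hβ.comp continuous_snd) continuous_const
    exact h1.inter (h2.inter (c.near_closed k))
  have hne : ∀ k, (T k).Nonempty := by
    intro k
    have h1 := hcon k
    have h2 : ∃ z z', c.p z β = 1 ∧ c.p z' β = -1 ∧ c.near k z z' := by
      by_contra h3
      push Not at h3
      exact h1 fun z z' hz hz' hn => h3 z z' hz hz' hn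
    obtain ⟨z, z', h3⟩ := h2
    exact ⟨(z, z'), h3⟩
  obtain ⟨q, hq⟩ := IsCompact.nonempty_iInter_of_sequence_nonempty_isCompact_isClosed T
    (fun k q hq => ⟨hq.1, hq.2.1, c.near_mono k (k + 1) _ _ (Nat.le_succ k) hq.2.2⟩) hne
    (hcl 0).isCompact hcl
  rw [Set.mem_iInter] at hq
  have heq : q.1 = q.2 := c.near_eq _ _ fun k => (hq k).2.2
  have h1 := (hq 0).1
  have h2 := (hq 0).2.1
  rw [heq, h2] at h1
  norm_num at h1

/-- **Piece S2.** Proof. Otherwise for all `k`, `σ` there is `η` in the cylinder `σ` with `E β η = 0` for all `β ∈ I k`. Choose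
`D σ` = such an `η` for `k = |σ|`.  `Rich` with this `D`, `s = 1`: a wild limit `α`.  `α ∈ I k` for some `k`
(`I_cover`).  By `E_mul` is not even needed: take `β = α`: by `Wild` (with `w = 1`, `ε = 1`, `M = k`) there is `n ≥ k` and some `j` with
`lad α j = some (D (rs α n), c)`, hence `E α (D (rs α n)) = c * 1 ≠ 0` (`E_some` with `S.lad_dl`, `E_self`), although
`α ∈ I k ⊆ I n` and `n` is the length of `rs α n`. Contradiction. -/
theorem Coding.step1 (c : Coding S Z Y) (hS : S.Rich) :
    ∃ (k : ℕ) (σ₀ : List Bool), ∀ α, Cyl σ₀ α → ∃ β ∈ c.I k, S.E β α ≠ 0 := by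
  by_contra hcon
  push Not at hcon
  choose D hD hE using hcon
  obtain ⟨α, -, -, hα⟩ := hS (fun σ => D σ.length σ) (fun _ => 1) (fun _ _ => false) []
    (fun σ => hD σ.length σ)
  obtain ⟨k, hk⟩ := c.I_cover α
  obtain ⟨n, hn, j, -, w, hl, -⟩ := hα 1 k 1 one_pos
  have h1 := S.E_some (S.lad_dl _ _ _ hl) hl
  have hlen : (rs α n).length = n := by
    unfold rs
    rw [List.length_map, List.length_range]
  rw [S.E_self, mul_one] at h1
  have h2 := hE (rs α n).length (rs α n) α (c.I_mono (by rw [hlen]; exact hn) hk)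
  rw [h1] at h2
  exact Circle.coe_ne_zero w h2

end Pool.Agent.Lib.MP_45c416_gt.C
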