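import Pool.Agent.Lib.MP_45c416_gt.C.Lim
import Pool.Agent.Lib.MP_45c416_gt.C.Step1
import Pool.Agent.Lib.MP_45c416_gt.C.Mcl
import Pool.Agent.Lib.MP_45c416_gt.C.Grow

open Set Filter Topology

namespace Pool.Agent.Lib.MP_45c416_gt.C

variable {S : Sys} {Z : Type*} [TopologicalSpace Z] [CompactSpace Z] {Y : ℕ → Type*}
  [∀ n, TopologicalSpace (Y n)] [∀ n, CompactSpace (Y n)]

/-- The final contradiction. -/
theorem Coding.false (c : Coding S Z Y) (hS : S.Rich) (hY : ∀ n, IsScattered (Y n)) : False := by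
  classical
  obtain ⟨k, σ₀, hk⟩ := c.step1 hS
  have hcov : ∀ α, ∃ n, (c.Q k n α).Nonempty := fun α => by
    obtain ⟨n, y, hy⟩ := c.Q_cover k α 1
    exact ⟨n, _, hy⟩
  set N : R2 → ℕ := fun α => Nat.find (hcov α) with hNdef
  have hN1 : ∀ α, (c.Q k (N α) α).Nonempty := fun α => Nat.find_spec (hcov α)
  have hN2 : ∀ α n, n < N α → c.Q k n α = ∅ := fun α n hn =>
    Set.not_nonempty_iff_eq_empty.mp (Nat.find_min (hcov α) hn)
  have hmax := fun α => exists_max (c.Q_closed k (N α) α) (hN1 α)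
  choose T hT hTne hTmax using hmax
  choose q hq using hTne
  set z : R2 → Circle := fun α => (q α).1 with hzdef
  have hz : ∀ α, ∃ y, (z α, y) ∈ ArcS (c.Q k (N α) α) (T α) := fun α => ⟨(q α).2, hq α⟩
  have hpi := Real.pi_pos
  set v : R2 → ℝ := fun α => (1 / 2) ^ (N α) * (1 + T α / (4 * Real.pi)) with hv
  have hTd : ∀ α, 0 ≤ T α / (4 * Real.pi) := fun α => div_nonneg (hT α).1 (by positivity)
  have hTd1 : ∀ α, T α / (4 * Real.pi) ≤ 1 := fun α => by
    rw [div_le_one (by positivity)]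
    linarith [(hT α).2]
  have hv0 : ∀ α, 0 ≤ v α := fun α => mul_nonneg (by positivity) (by linarith [hTd α])
  have hv2 : ∀ α, v α ≤ 2 := fun α => by
    have h1 : ((1 : ℝ) / 2) ^ (N α) ≤ 1 := pow_le_one₀ (by norm_num) (by norm_num)
    calc v α ≤ 1 * (1 + T α / (4 * Real.pi)) :=
          mul_le_mul_of_nonneg_right h1 (by linarith [hTd α])
      _ ≤ 2 := by linarith [hTd1 α]
  obtain ⟨α, D, hα, hD, hvD, hW⟩ := S.mcl hS v 2 hv0 hv2 z σ₀
  have hall := fun w => c.wild_limit k N T z hT hz hN2 α D hD hvD hW w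
  obtain ⟨t', ht', hne⟩ := exists_longer (hY (N α)) (c.Q_closed k (N α) α) (hT α).1 hall
  obtain ⟨β, hβ, hE⟩ := hk α hα
  have hfull := c.no_full k (N α) α β hβ hE
  have hlt : T α < 2 * Real.pi := by
    rcases lt_or_eq_of_le (hT α).2 with h | h
    · exact h
    · exfalso
      have := hq α
      rw [h, hfull] at this
      exact this
  obtain ⟨x, hx⟩ := hne
  have hmem : x ∈ ArcS (c.Q k (N α) α) (min t' (2 * Real.pi)) := fun θ hθ =>
    hx θ ⟨hθ.1, hθ.2.trans (min_le_left _ _)⟩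
  have h1 := hTmax α (min t' (2 * Real.pi)) ⟨le_min ((hT α).1.trans ht'.le) (by positivity),
    min_le_right _ _⟩ (lt_min ht' hlt)
  rw [h1] at hmem
  exact hmem

end Pool.Agent.Lib.MP_45c416_gt.C
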