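import Pool.Agent.Lib.MP_45c416_gt.Scattered
import Pool.Agent.Lib.MP_45c416_gt.Ind

open Set Filter Topology TopologicalSpace

namespace Pool.Agent.Lib.MP_45c416_gt.C

universe u

variable {S : Type u} [TopologicalSpace S] [CompactSpace S] [T2Space S]

/-- **Piece D0.** Finite powers of a scattered space are scattered. (Induction on `l`; a product `X × Y` of scattered spaces is
scattered: take an isolated point `x₀` of the projection of `A` to `X`, then an isolated point `y₀` of the fibre; transport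
along `Fin.consEquiv` or the like / or prove it directly for `Fin l → S`.) -/
theorem isScattered_pi {X : Type*} [TopologicalSpace X] (hX : IsScattered X) (l : ℕ) :
    IsScattered (Fin l → X) := by
  induction l with
  | zero =>
    intro A hA
    obtain ⟨a, ha⟩ := hA
    refine ⟨a, ha, univ, isOpen_univ, ?_⟩
    rw [univ_inter]
    ext b
    rw [Subsingleton.elim b a]
    exact ⟨fun _ => rfl, fun _ => ha⟩
  | succ l ih =>
    intro A hA
    have hP : ((fun a : Fin (l + 1) → X => a 0) '' A).Nonempty := hA.image _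
    obtain ⟨x₀, hx₀, U, hU, hUP⟩ := hX _ hP
    have hF : {b : Fin l → X | (Fin.cons x₀ b : Fin (l + 1) → X) ∈ A}.Nonempty := by
      obtain ⟨a, ha, hax⟩ := hx₀
      have hax' : a 0 = x₀ := hax
      refine ⟨Fin.tail a, ?_⟩
      change (Fin.cons x₀ (Fin.tail a) : Fin (l + 1) → X) ∈ A
      rw [← hax', Fin.cons_self_tail]
      exact ha
    obtain ⟨b₀, hb₀, V, hV, hVF⟩ := ih _ hF
    have hb₀' : (Fin.cons x₀ b₀ : Fin (l + 1) → X) ∈ A := hb₀
    have hx₀U : x₀ ∈ U := by
      have : x₀ ∈ U ∩ (fun a : Fin (l + 1) → X => a 0) '' A := by rw [hUP]; rfl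
      exact this.1
    have hb₀V : b₀ ∈ V := by
      have : b₀ ∈ V ∩ {b : Fin l → X | (Fin.cons x₀ b : Fin (l + 1) → X) ∈ A} := by rw [hVF]; rfl
      exact this.1
    refine ⟨Fin.cons x₀ b₀, hb₀', {a | a 0 ∈ U ∧ Fin.tail a ∈ V}, ?_, ?_⟩
    · refine (hU.preimage (continuous_apply 0)).inter (hV.preimage ?_)
      exact continuous_pi fun i => continuous_apply i.succ
    · ext a
      constructor
      · rintro ⟨⟨haU, haV⟩, haA⟩
        have h1 : a 0 = x₀ := by
          have : a 0 ∈ U ∩ (fun a : Fin (l + 1) → X => a 0) '' A := ⟨haU, a, haA, rfl⟩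
          rw [hUP] at this
          exact this
        have h2 : Fin.tail a = b₀ := by
          have : Fin.tail a ∈ V ∩ {b : Fin l → X | (Fin.cons x₀ b : Fin (l + 1) → X) ∈ A} := by
            refine ⟨haV, ?_⟩
            change (Fin.cons x₀ (Fin.tail a) : Fin (l + 1) → X) ∈ A
            rw [← h1, Fin.cons_self_tail]
            exact haA
          rw [hVF] at this
          exact this
        change a = Fin.cons x₀ b₀
        rw [← h1, ← h2, Fin.cons_self_tail]
      · intro ha
        have ha' : a = Fin.cons x₀ b₀ := ha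
        rw [ha']
        exact ⟨⟨hx₀U, hb₀V⟩, hb₀'⟩

/-- finite combinations of point evaluations -/
private def AtomD (S : Type u) [TopologicalSpace S] : Submodule ℝ (C(S, ℝ) → ℝ) :=
  Submodule.span ℝ (Set.range fun s : S => fun f : C(S, ℝ) => f s)

omit [CompactSpace S] [T2Space S] in
private theorem AtomD_mul {d : C(S, ℝ) → ℝ} (hd : d ∈ AtomD S) (g : C(S, ℝ)) :
    (fun f => d (f * g)) ∈ AtomD S := by
  unfold AtomD at hd
  induction hd using Submodule.span_induction with
  | mem d hd =>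
    obtain ⟨s, rfl⟩ := hd
    have h1 : (fun f : C(S, ℝ) => (f * g) s) = g s • (fun f : C(S, ℝ) => f s) := by
      funext f
      simp [mul_comm]
    change (fun f : C(S, ℝ) => (f * g) s) ∈ AtomD S
    rw [h1]
    exact Submodule.smul_mem _ _ (Submodule.subset_span ⟨s, rfl⟩)
  | zero => exact Submodule.zero_mem _
  | add x y _ _ hx hy => exact Submodule.add_mem _ hx hy
  | smul a x _ hx => exact Submodule.smul_mem _ a hx

/-- nearly a finite combination of point evaluations on a clopen set -/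
private def AtomCarr (φ : WeakDual ℝ C(S, ℝ)) (U : Clopens S) : Prop :=
  ∀ ε > 0, ∃ d ∈ AtomD S, ∀ f : C(S, ℝ), |φ (f * ind U) - d f| ≤ ε * ‖f‖

omit [T2Space S] in
private theorem Atom_norm_mul (f : C(S, ℝ)) (U : Clopens S) : ‖f * ind U‖ ≤ ‖f‖ := by
  rw [ContinuousMap.norm_le _ (norm_nonneg f)]
  intro x
  rw [ContinuousMap.mul_apply]
  by_cases hx : x ∈ U
  · rw [ind_apply_mem hx, mul_one]
    exact f.norm_coe_le_norm x
  · rw [ind_apply_notMem hx, mul_zero, norm_zero]
    exact norm_nonneg f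

private theorem AtomCarr.mono {φ : WeakDual ℝ C(S, ℝ)} {U V : Clopens S} (hU : AtomCarr φ U)
    (hVU : V ≤ U) : AtomCarr φ V := by
  intro ε hε
  obtain ⟨d, hd, h⟩ := hU ε hε
  refine ⟨fun f => d (f * ind V), AtomD_mul hd _, fun f => ?_⟩
  have h1 := h (f * ind V)
  have h2 : f * ind V * ind U = f * ind V := by
    ext x
    simp only [ContinuousMap.mul_apply]
    by_cases hx : x ∈ V
    · rw [ind_apply_mem (hVU hx), mul_one]
    · rw [ind_apply_notMem hx, mul_zero, zero_mul]
  rw [h2] at h1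
  exact h1.trans (mul_le_mul_of_nonneg_left (Atom_norm_mul f V) hε.le)

private theorem AtomCarr.sup {φ : WeakDual ℝ C(S, ℝ)} {U V : Clopens S} (hU : AtomCarr φ U)
    (hV : AtomCarr φ V) : AtomCarr φ (U ⊔ V) := by
  intro ε hε
  obtain ⟨d, hd, h⟩ := hU (ε / 2) (by positivity)
  obtain ⟨d', hd', h'⟩ := (hV.mono (sdiff_le : V \ U ≤ V)) (ε / 2) (by positivity)
  refine ⟨d + d', Submodule.add_mem _ hd hd', fun f => ?_⟩
  have h1 : f * ind (U ⊔ V) = f * ind U + f * ind (V \ U) := by
    rw [← mul_add, ← ind_sup disjoint_sdiff_self_right, sup_sdiff_self_right]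
  rw [h1, map_add, Pi.add_apply]
  have e : φ (f * ind U) + φ (f * ind (V \ U)) - (d f + d' f) =
      (φ (f * ind U) - d f) + (φ (f * ind (V \ U)) - d' f) := by ring
  rw [e]
  refine (abs_add_le _ _).trans ?_
  have := h f
  have := h' f
  linarith

private theorem Atom_cover {φ : WeakDual ℝ C(S, ℝ)} {K : Set S} (hK : IsCompact K)
    (hcov : ∀ x ∈ K, ∃ U : Clopens S, AtomCarr φ U ∧ x ∈ U) :
    ∃ U : Clopens S, K ⊆ U ∧ AtomCarr φ U := by
  apply hK.induction_on (p := fun s => ∃ U : Clopens S, s ⊆ U ∧ AtomCarr φ U)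
  · refine ⟨⊥, Set.empty_subset _, fun ε hε => ⟨0, Submodule.zero_mem _, fun f => ?_⟩⟩
    have h1 : f * ind (⊥ : Clopens S) = 0 := by
      ext x
      rw [ContinuousMap.mul_apply, ind_apply_notMem (fun h : x ∈ (⊥ : Clopens S) => h), mul_zero]
      rfl
    rw [h1, map_zero, Pi.zero_apply, sub_zero, abs_zero]
    positivity
  · rintro s t hst ⟨U, hU, hUc⟩
    exact ⟨U, hst.trans hU, hUc⟩
  · rintro s t ⟨U, hU, hUc⟩ ⟨V, hV, hVc⟩
    exact ⟨U ⊔ V, Set.union_subset (hU.trans Set.subset_union_left)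
      (hV.trans Set.subset_union_right), hUc.sup hVc⟩
  · intro x hx
    obtain ⟨U, hUc, hxU⟩ := hcov x hx
    exact ⟨U, mem_nhdsWithin_of_mem_nhds (U.isClopen.isOpen.mem_nhds hxU), U, subset_rfl, hUc⟩

private theorem Atom_local [TotallyDisconnectedSpace S] {φ : WeakDual ℝ C(S, ℝ)} (hφ : φ ∈ M1 S)
    {V0 : Clopens S} {x : S} (hx : x ∈ V0)
    (hloc : ∀ y ∈ V0, y ≠ x → ∃ U : Clopens S, AtomCarr φ U ∧ y ∈ U) : AtomCarr φ V0 := by
  intro ε hε
  have hφ' : ∀ f : C(S, ℝ), |φ f| ≤ ‖f‖ := hφ
  set T : Set ℝ := {r | ∃ (f : C(S, ℝ)) (W : Clopens S), x ∈ W ∧ ‖f‖ ≤ 1 ∧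
    (∀ y ∈ W, f y = 0) ∧ r = φ f} with hT
  have hTne : T.Nonempty := by
    refine ⟨φ 0, 0, ⊤, trivial, ?_, fun y _ => rfl, rfl⟩
    rw [norm_zero]
    exact zero_le_one
  have hTb : BddAbove T := by
    refine ⟨1, ?_⟩
    rintro r ⟨f, W, -, hf, -, rfl⟩
    exact (le_abs_self _).trans ((hφ' f).trans hf)
  obtain ⟨r, ⟨f0, W0, hxW0, hf0, hf0W, rfl⟩, hr⟩ :=
    exists_lt_of_lt_csSup hTne (show sSup T - ε / 4 < sSup T by linarith)
  set W : Clopens S := W0 ⊓ V0 with hW
  have hxW : x ∈ W := ⟨hxW0, hx⟩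
  -- functions on `W` vanishing near `x`
  have h1 : ∀ (g : C(S, ℝ)) (W' : Clopens S), x ∈ W' → (∀ y ∉ W, g y = 0) →
      (∀ y ∈ W', g y = 0) → ‖g‖ ≤ 1 → φ g ≤ ε / 4 := by
    intro g W' hxW' hg hg' hg1
    have h2 : φ (f0 + g) ≤ sSup T := by
      refine le_csSup hTb ⟨f0 + g, W0 ⊓ W', ⟨hxW0, hxW'⟩, ?_, ?_, rfl⟩
      · rw [ContinuousMap.norm_le _ zero_le_one]
        intro y
        rw [ContinuousMap.add_apply]
        by_cases hy : y ∈ W
        · rw [hf0W y hy.1, zero_add]
          exact (g.norm_coe_le_norm y).trans hg1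
        · rw [hg y hy, add_zero]
          exact (f0.norm_coe_le_norm y).trans hf0
      · intro y hy
        rw [ContinuousMap.add_apply, hf0W y hy.1, hg' y hy.2, add_zero]
    rw [map_add] at h2
    linarith
  have h2 : ∀ (g : C(S, ℝ)) (W' : Clopens S), x ∈ W' → (∀ y ∉ W, g y = 0) →
      (∀ y ∈ W', g y = 0) → |φ g| ≤ ε / 4 * ‖g‖ := by
    intro g W' hxW' hg hg'
    have key : ∀ h : C(S, ℝ), (∀ y ∉ W, h y = 0) → (∀ y ∈ W', h y = 0) →
        φ h ≤ ε / 4 * ‖h‖ := by
      intro h hh hh'
      rcases eq_or_lt_of_le (norm_nonneg h) with h0 | h0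
      · have : h = 0 := norm_eq_zero.1 h0.symm
        rw [this, map_zero, norm_zero, mul_zero]
      · have h3 := h1 ((‖h‖)⁻¹ • h) W' hxW' (fun y hy => by
          rw [ContinuousMap.smul_apply, hh y hy, smul_zero]) (fun y hy => by
          rw [ContinuousMap.smul_apply, hh' y hy, smul_zero]) (by
          rw [norm_smul, norm_inv, norm_norm, inv_mul_cancel₀ h0.ne'])
        rw [map_smul, smul_eq_mul, inv_mul_le_iff₀ h0] at h3
        linarith
    rw [abs_le]
    have h3 := key g hg hg'
    have h4 := key (-g) (fun y hy => by rw [ContinuousMap.neg_apply, hg y hy, neg_zero])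
      (fun y hy => by rw [ContinuousMap.neg_apply, hg' y hy, neg_zero])
    rw [map_neg, norm_neg] at h4
    constructor <;> linarith
  -- functions on `W` vanishing at `x`
  have h3 : ∀ g : C(S, ℝ), (∀ y ∉ W, g y = 0) → g x = 0 → |φ g| ≤ ε / 4 * ‖g‖ := by
    intro g hg hgx
    refine le_of_forall_pos_le_add fun η hη => ?_
    have hopen : IsOpen {y | |g y| < η} := isOpen_lt (continuous_abs.comp g.continuous)
      continuous_const
    have hxo : x ∈ {y | |g y| < η} := by
      change |g x| < η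
      rw [hgx, abs_zero]
      exact hη
    obtain ⟨W1, hW1, hxW1, hW1s⟩ := compact_exists_isClopen_in_isOpen hopen hxo
    set W' : Clopens S := ⟨W1, hW1⟩ with hW'
    have hxW' : x ∈ W' := hxW1
    have e1 : g = g * ind W'ᶜ + g * ind W' := by
      ext y
      rw [ContinuousMap.add_apply, ContinuousMap.mul_apply, ContinuousMap.mul_apply]
      by_cases hy : y ∈ W'
      · rw [ind_apply_mem hy, ind_apply_notMem (show y ∉ W'ᶜ from fun h => h hy)]
        ring
      · rw [ind_apply_notMem hy, ind_apply_mem (show y ∈ W'ᶜ from hy)]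
        ring
    have e2 : |φ (g * ind W'ᶜ)| ≤ ε / 4 * ‖g‖ := by
      refine (h2 (g * ind W'ᶜ) W' hxW' (fun y hy => ?_) (fun y hy => ?_)).trans ?_
      · rw [ContinuousMap.mul_apply, hg y hy, zero_mul]
      · rw [ContinuousMap.mul_apply, ind_apply_notMem (show y ∉ W'ᶜ from fun h => h hy), mul_zero]
      · exact mul_le_mul_of_nonneg_left (Atom_norm_mul g _) (by positivity)
    have e3 : |φ (g * ind W')| ≤ η := by
      refine (hφ' _).trans ?_
      rw [ContinuousMap.norm_le _ hη.le]
      intro y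
      rw [ContinuousMap.mul_apply]
      by_cases hy : y ∈ W'
      · rw [ind_apply_mem hy, mul_one, Real.norm_eq_abs]
        exact (hW1s hy : |g y| < η).le
      · rw [ind_apply_notMem hy, mul_zero, norm_zero]
        exact hη.le
    calc |φ g| = |φ (g * ind W'ᶜ) + φ (g * ind W')| := by rw [← map_add, ← e1]
      _ ≤ |φ (g * ind W'ᶜ)| + |φ (g * ind W')| := abs_add_le _ _
      _ ≤ _ := by linarith
  -- the other points of `V0`
  obtain ⟨U, hU, hUc⟩ := Atom_cover (φ := φ) ((V0 \ W : Clopens S).isClopen.isClosed.isCompact)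
    (K := ((V0 \ W : Clopens S) : Set S)) (by
      intro y hy
      refine hloc y hy.1 ?_
      rintro rfl
      exact hy.2 hxW)
  obtain ⟨d, hd, hdf⟩ := (hUc.mono (show V0 \ W ≤ U from hU)) (ε / 4) (by positivity)
  refine ⟨d + φ (ind W) • (fun f : C(S, ℝ) => f x), Submodule.add_mem _ hd
    (Submodule.smul_mem _ _ (Submodule.subset_span ⟨x, rfl⟩)), fun f => ?_⟩
  set g : C(S, ℝ) := (f - f x • (1 : C(S, ℝ))) * ind W with hg
  have e1 : f * ind V0 = f * ind (V0 \ W) + (f x • ind W + g) := by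
    ext y
    simp only [hg, ContinuousMap.add_apply, ContinuousMap.mul_apply, ContinuousMap.sub_apply,
      ContinuousMap.smul_apply, ContinuousMap.one_apply, smul_eq_mul]
    by_cases hy : y ∈ W
    · rw [ind_apply_mem hy, ind_apply_mem (show y ∈ V0 from hy.2),
        ind_apply_notMem (show y ∉ V0 \ W from fun h => h.2 hy)]
      ring
    · rw [ind_apply_notMem hy]
      by_cases hy' : y ∈ V0
      · rw [ind_apply_mem hy', ind_apply_mem (show y ∈ V0 \ W from ⟨hy', hy⟩)]
        ring
      · rw [ind_apply_notMem hy', ind_apply_notMem (show y ∉ V0 \ W from fun h => hy' h.1)]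
        ring
  have e2 : |φ g| ≤ ε / 4 * (2 * ‖f‖) := by
    refine (h3 g ?_ ?_).trans (mul_le_mul_of_nonneg_left ?_ (by positivity))
    · intro y hy
      rw [hg, ContinuousMap.mul_apply, ind_apply_notMem hy, mul_zero]
    · simp [hg]
    · refine (Atom_norm_mul _ W).trans ?_
      rw [ContinuousMap.norm_le _ (by positivity)]
      intro y
      have a1 := f.norm_coe_le_norm y
      have a2 := f.norm_coe_le_norm x
      simp only [ContinuousMap.sub_apply, ContinuousMap.smul_apply, ContinuousMap.one_apply,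
        smul_eq_mul, mul_one]
      refine (norm_sub_le _ _).trans ?_
      linarith
  have e3 : φ (f * ind V0) - (d + φ (ind W) • (fun f : C(S, ℝ) => f x)) f =
      (φ (f * ind (V0 \ W)) - d f) + φ g := by
    rw [e1, map_add, map_add, map_smul]
    simp only [Pi.add_apply, Pi.smul_apply, smul_eq_mul]
    ring
  rw [e3]
  refine (abs_add_le _ _).trans ?_
  have e4 := hdf f
  have e5 : 0 ≤ ε * ‖f‖ := by positivity
  linarith

/-- **Piece D1.** Functionals in the unit ball of `C(S)*`, `S` scattered compact, are nearly finite rational combinations of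
point evaluations.

Proof. `S` is zero-dimensional (`IsScattered.totallyDisconnected`). For a clopen set `U` let `Carr U` mean: for all `ε > 0` there are
`l`, `a : Fin l → ℝ`, `s : Fin l → S` with `|φ f - ∑ aᵢ f(sᵢ)| ≤ ε ‖f‖` for all `f` vanishing off `U`.  Disjoint (hence all finite)
unions of such sets are such sets, and clopen subsets too. If `univ` is not such then (compactness) the set `A` of points without such a clopen
neighbourhood is nonempty; let `x` be an isolated point of `A`, `V` a clopen neighbourhood of `x` with `V ∩ A = {x}`. Given `ε`: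
there is a clopen `W`, `x ∈ W ⊆ V`, with `|φ f| ≤ ε ‖f‖` for all `f` supported in `W \ W'`, `W'` any clopen neighbourhood of
`x` (otherwise infinitely many disjointly supported `fₙ`, `‖fₙ‖ ≤ 1`, `φ fₙ > ε`; their finite sums have norm `≤ 1` and large `φ`).
For `f` supported in `W` then `|φ f - φ(1_W) f(x)| ≤ 2 ε ‖f‖ + (small)`: `f = f 1_{W \ W'} + f(x) 1_{W'} + (f - f(x)) 1_{W'}`,
`|φ(1_W) - φ(1_{W'})| ≤ ε`.  `V \ W` is compact and covered by good sets. So `V` is good: contradiction.
At the end replace the real coefficients by rational ones.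
(Alternative: `carried_top` of `MP_45c416_gt/Scattered.lean` applied to `μ U = φ(1_U)`: a finite set `A` with `|μ V| ≤ ε` for all clopen
`V` missing `A`; then approximate `f` by simple functions.) -/
theorem exists_approx (hS : IsScattered S) (φ : WeakDual ℝ C(S, ℝ)) (hφ : φ ∈ M1 S) (ε : ℝ)
    (hε : 0 < ε) : ∃ (l : ℕ) (a : Fin l → ℚ) (s : Fin l → S), ∀ f : C(S, ℝ),
      |φ f - ∑ i, (a i : ℝ) * f (s i)| ≤ ε * ‖f‖ := by
  classical
  have := hS.totallyDisconnected
  have key : ∀ x : S, ∃ U : Clopens S, AtomCarr φ U ∧ x ∈ U := by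
    by_contra hno
    push Not at hno
    set A : Set S := {x | ∀ U : Clopens S, AtomCarr φ U → x ∉ U} with hAdef
    obtain ⟨x, hxA, W, hW, hWA⟩ := hS A hno
    have hxW : x ∈ W := by
      have : x ∈ W ∩ A := by rw [hWA]; rfl
      exact this.1
    obtain ⟨V, hVc, hxV, hVW⟩ := compact_exists_isClopen_in_isOpen hW hxW
    have hlocal : ∀ y ∈ V, y ≠ x → ∃ U : Clopens S, AtomCarr φ U ∧ y ∈ U := by
      intro y hy hyx
      by_contra hcon
      push Not at hcon
      have : y ∈ W ∩ A := ⟨hVW hy, hcon⟩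
      rw [hWA] at this
      exact hyx this
    exact hxA ⟨V, hVc⟩ (Atom_local (V0 := ⟨V, hVc⟩) hφ hxV hlocal) hxV
  obtain ⟨U, hU, hUc⟩ := Atom_cover (φ := φ) isCompact_univ (fun x _ => key x)
  have hUtop : U = ⊤ := by
    ext x
    exact ⟨fun _ => trivial, fun _ => hU trivial⟩
  obtain ⟨d, hd, hdf⟩ := hUc (ε / 2) (by positivity)
  unfold AtomD at hd
  obtain ⟨c, hc⟩ := (Finsupp.mem_span_range_iff_exists_finsupp).1 hd
  set l := c.support.card with hl
  set e := c.support.equivFin with he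
  have hq : ∀ i : Fin l, ∃ q : ℚ, |c (e.symm i) - q| < ε / (2 * (l + 1)) := fun i =>
    exists_rat_near _ (by positivity)
  choose a ha using hq
  refine ⟨l, a, fun i => (e.symm i : S), fun f => ?_⟩
  have h1 : d f = ∑ i : Fin l, c (e.symm i) * f (e.symm i) := by
    have h2 : d f = ∑ s ∈ c.support, c s * f s := by
      rw [← hc, Finsupp.sum, Finset.sum_apply]
      rfl
    rw [h2, ← Finset.sum_coe_sort c.support (fun s => c s * f s)]
    exact (Equiv.sum_comp e.symm (fun s : c.support => c s * f s)).symm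
  have h2 := hdf f
  have h3 : f * ind U = f := by
    ext x
    rw [ContinuousMap.mul_apply, ind_apply_mem (show x ∈ U from hU trivial), mul_one]
  rw [h3] at h2
  have h4 : |d f - ∑ i, (a i : ℝ) * f (e.symm i)| ≤ ε / 2 * ‖f‖ := by
    rw [h1, ← Finset.sum_sub_distrib]
    refine (Finset.abs_sum_le_sum_abs _ _).trans ?_
    have h5 : ∀ i ∈ (Finset.univ : Finset (Fin l)),
        |c (e.symm i) * f (e.symm i) - (a i : ℝ) * f (e.symm i)| ≤
          ε / (2 * (l + 1)) * ‖f‖ := by
      intro i _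
      rw [← sub_mul, abs_mul]
      have h6 := f.norm_coe_le_norm (e.symm i)
      rw [Real.norm_eq_abs] at h6
      exact mul_le_mul (ha i).le h6 (abs_nonneg _) (by positivity)
    refine (Finset.sum_le_card_nsmul _ _ _ h5).trans ?_
    rw [Finset.card_univ, Fintype.card_fin, nsmul_eq_mul, ← mul_assoc]
    refine mul_le_mul_of_nonneg_right ?_ (norm_nonneg f)
    have h7 : (0 : ℝ) < 2 * (l + 1) := by positivity
    rw [← mul_div_assoc, div_le_div_iff₀ h7 (by norm_num)]
    nlinarith [hε]
  have e5 : φ f - ∑ i, (a i : ℝ) * f (e.symm i) =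
      (φ f - d f) + (d f - ∑ i, (a i : ℝ) * f (e.symm i)) := by ring
  rw [e5]
  refine (abs_add_le _ _).trans ?_
  linarith

end Pool.Agent.Lib.MP_45c416_gt.C
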