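import Pool.Agent.Lib.MP_45c416_gt.Defs

/-!
# Circle bundles over scattered spaces: definitions

Paper: /team-store/MP_45c416_paper.md
-/

open Set Filter Topology

namespace Pool.Agent.Lib.MP_45c416_gt.C

/-- Points of the index set: the Cantor space. -/
abbrev R2 : Type := ℕ → Bool

/-- `u` and `v` differ first at `k`. -/
def Dl (u v : R2) (k : ℕ) : Prop := (∀ i < k, u i = v i) ∧ u k ≠ v k

/-- The first `n` values of `u`. -/
def rs (u : R2) (n : ℕ) : List Bool := (List.range n).map u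

/-- `u` extends the string `σ`. -/
def Cyl (σ : List Bool) (u : R2) : Prop := rs u σ.length = σ

/-- A well-order of the Cantor space together with ladders. -/
structure Sys where
  lt : R2 → R2 → Prop
  wo : IsWellOrder R2 lt
  lad : R2 → ℕ → Option (R2 × Circle)
  lad_lt : ∀ α k p, lad α k = some p → lt p.1 α
  lad_dl : ∀ α k p, lad α k = some p → Dl p.1 α k

/-- `α` is a wild limit of the points `D (α|n)` with marks `s (α|n)`: all rotations occur. -/
def Sys.Wild (S : Sys) (D : List Bool → R2) (s : List Bool → Circle) (α : R2) : Prop :=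
  ∀ (w : Circle) (M : ℕ) (ε : ℝ), 0 < ε →
    ∃ n ≥ M, ∃ k ≥ M, ∃ c : Circle,
      S.lad α k = some (D (rs α n), c) ∧ dist (c * s (rs α n)) w < ε

/-- The system is rich: every task is met by wild limits above every countable set. -/
def Sys.Rich (S : Sys) : Prop :=
  ∀ (D : List Bool → R2) (s : List Bool → Circle) (a : ℕ → R2) (σ₀ : List Bool),
    (∀ σ, Cyl σ (D σ)) →
    ∃ α : R2, Cyl σ₀ α ∧ (∀ n, S.lt (a n) α) ∧ S.Wild D s α

theorem Sys.wf (S : Sys) : WellFounded S.lt := S.wo.toIsWellFounded.wf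

open Classical in
/-- The product of the rotations along the walk from `β` to `ξ`, and `0` if the walk fails. -/
noncomputable def Sys.E (S : Sys) : R2 → R2 → ℂ :=
  S.wf.fix fun β rec ξ =>
    if ξ = β then 1 else
      match hl : S.lad β (PiNat.firstDiff ξ β) with
      | none => 0
      | some p => (p.2 : ℂ) * rec p.1 (S.lad_lt β _ p hl) ξ

theorem Dl.firstDiff {u v : R2} {k : ℕ} (h : Dl u v k) : PiNat.firstDiff u v = k := by
  have hne : u ≠ v := fun e => h.2 (by rw [e])
  apply le_antisymm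
  · by_contra hlt
    push Not at hlt
    exact h.2 (PiNat.apply_eq_of_lt_firstDiff hlt)
  · by_contra hlt
    push Not at hlt
    exact PiNat.apply_firstDiff_ne hne (h.1 _ hlt)

theorem Dl.ne {u v : R2} {k : ℕ} (h : Dl u v k) : u ≠ v := fun e => h.2 (by rw [e])

theorem exists_dl {u v : R2} (h : u ≠ v) : ∃ k, Dl u v k :=
  ⟨PiNat.firstDiff u v, fun _ hi => PiNat.apply_eq_of_lt_firstDiff hi,
    PiNat.apply_firstDiff_ne h⟩

theorem Sys.E_self (S : Sys) (β : R2) : S.E β β = 1 := by
  unfold Sys.E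
  rw [WellFounded.fix_eq]
  simp

theorem Sys.E_none (S : Sys) {β ξ : R2} {k : ℕ} (h : Dl ξ β k) (hl : S.lad β k = none) :
    S.E β ξ = 0 := by
  unfold Sys.E
  rw [WellFounded.fix_eq]
  rw [if_neg h.ne]
  split
  · rfl
  · next p hp =>
    rw [h.firstDiff, hl] at hp
    simp at hp

theorem Sys.E_some (S : Sys) {β ξ : R2} {k : ℕ} {p : R2 × Circle} (h : Dl ξ β k)
    (hl : S.lad β k = some p) : S.E β ξ = (p.2 : ℂ) * S.E p.1 ξ := by
  conv_lhs => unfold Sys.E
  rw [WellFounded.fix_eq]
  rw [if_neg h.ne]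
  split
  · next hp =>
    rw [h.firstDiff, hl] at hp
    simp at hp
  · next q hq =>
    rw [h.firstDiff, hl] at hq
    simp only [Option.some.injEq] at hq
    subst hq
    rfl

/-- The point over `μ` with coordinate `w`. -/
noncomputable def Sys.Phi (S : Sys) (μ : R2) (w : ℂ) : R2 → ℂ := fun β => w * S.E β μ

/-- The compact space: a circle over every `μ`, and the point `0`. -/
def Sys.KSet (S : Sys) : Set (R2 → ℂ) :=
  {g | ∃ μ : R2, ∃ w : ℂ, (w = 0 ∨ ‖w‖ = 1) ∧ g = S.Phi μ w}

/-- The points `(w, y)` such that the whole arc of length `t` starting at `w` is coded by `y`. -/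
def ArcS {Y : Type*} (Q : Set (Circle × Y)) (t : ℝ) : Set (Circle × Y) :=
  {q | ∀ θ ∈ Icc (0 : ℝ) t, (q.1 * Circle.exp θ, q.2) ∈ Q}

/-- A surjection onto `KSet` from a space `Z` with countably many scattered families of codes. -/
structure Coding (S : Sys) (Z : Type*) [TopologicalSpace Z] (Y : ℕ → Type*)
    [∀ n, TopologicalSpace (Y n)] where
  p : Z → R2 → ℂ
  p_cont : Continuous p
  p_surj : ∀ g ∈ S.KSet, ∃ z, p z = g
  near : ℕ → Z → Z → Prop
  near_closed : ∀ k, IsClosed {q : Z × Z | near k q.1 q.2}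
  near_eq : ∀ z z', (∀ k, near k z z') → z = z'
  near_mono : ∀ k l z z', k ≤ l → near l z z' → near k z z'
  Cd : ℕ → ∀ n, Set (Z × Y n)
  Cd_closed : ∀ k n, IsClosed (Cd k n)
  Cd_cover : ∀ k z, ∃ n y, (z, y) ∈ Cd k n
  Cd_near : ∀ k n z z' y, (z, y) ∈ Cd k n → (z', y) ∈ Cd k n → near k z z'

section

variable {S : Sys} {Z : Type*} [TopologicalSpace Z] {Y : ℕ → Type*}
  [∀ n, TopologicalSpace (Y n)]

/-- The coordinates at which the values `1` and `-1` are separated at scale `k`. -/
def Coding.I (c : Coding S Z Y) (k : ℕ) : Set R2 :=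
  {β | ∀ z z', c.p z β = 1 → c.p z' β = -1 → ¬ c.near k z z'}

/-- The pairs (direction over `α`, code of type `n` at scale `k`). -/
def Coding.Q (c : Coding S Z Y) (k n : ℕ) (α : R2) : Set (Circle × Y n) :=
  {q | ∃ z, c.p z = S.Phi α q.1 ∧ (z, q.2) ∈ c.Cd k n}

end

end Pool.Agent.Lib.MP_45c416_gt.C
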