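import Pool.Agent.Lib.MP_45c416_gt.C.Defs

open Set Filter Topology

namespace Pool.Agent.Lib.MP_45c416_gt.C

variable (S : Sys)

/-- **Piece E1.** -/
theorem Sys.E_norm (β ξ : R2) : S.E β ξ = 0 ∨ ‖S.E β ξ‖ = 1 := by
  induction β using S.wf.induction with
  | _ β ih =>
    by_cases h : ξ = β
    · subst h
      right
      rw [S.E_self, norm_one]
    · obtain ⟨k, hk⟩ := exists_dl h
      cases hl : S.lad β k with
      | none => exact Or.inl (S.E_none hk hl)
      | some p =>
        rw [S.E_some hk hl]
        rcases ih p.1 (S.lad_lt β k p hl) with h1 | h1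
        · left
          rw [h1, mul_zero]
        · right
          rw [norm_mul, h1, mul_one, Circle.norm_coe]

/-- **Piece E2.** -/
theorem Sys.lt_of_E (β ξ : R2) (h : S.E β ξ ≠ 0) : ξ = β ∨ S.lt ξ β := by
  induction β using S.wf.induction with
  | _ β ih =>
    by_cases h0 : ξ = β
    · exact Or.inl h0
    · right
      obtain ⟨k, hk⟩ := exists_dl h0
      cases hl : S.lad β k with
      | none => exact absurd (S.E_none hk hl) h
      | some p =>
        rw [S.E_some hk hl] at h
        rcases ih p.1 (S.lad_lt β k p hl) (right_ne_zero_of_mul h) with h1 | h1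
        · rw [h1]
          exact S.lad_lt β k p hl
        · haveI := S.wo
          exact _root_.trans h1 (S.lad_lt β k p hl)

/-- **Piece E3.** The walk from `lam` to a point close to `μ` goes through `μ` or fails like the walk to `μ`.

Proof: induction on `lam` (well-founded, `S.wf.induction`). If `μ = lam`: `M = 0`, `E_self`. If `μ ≠ lam` let `Dl μ lam k`;
for `ξ` agreeing with `μ` up to `k` also `Dl ξ lam k`.  `lad lam k = none`: both sides are 0 (`E_none`), `M = k + 1`.
`lad lam k = some p`: `E_some` twice and the induction hypothesis for `p.1`, `M = max M' (k + 1)`. -/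
theorem Sys.E_mul (lam μ : R2) : ∃ M : ℕ, ∀ ξ : R2, (∀ i < M, ξ i = μ i) →
    S.E lam ξ = S.E lam μ * S.E μ ξ := by
  induction lam using S.wf.induction with
  | _ lam ih =>
    by_cases h : μ = lam
    · subst h
      refine ⟨0, fun ξ _ => ?_⟩
      rw [S.E_self, one_mul]
    · obtain ⟨k, hk⟩ := exists_dl h
      have hdl : ∀ ξ : R2, (∀ i < k + 1, ξ i = μ i) → Dl ξ lam k := by
        intro ξ hξ
        refine ⟨fun i hi => (hξ i (by omega)).trans (hk.1 i hi), ?_⟩
        rw [hξ k (by omega)]
        exact hk.2
      cases hl : S.lad lam k with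
      | none =>
        refine ⟨k + 1, fun ξ hξ => ?_⟩
        rw [S.E_none (hdl ξ hξ) hl, S.E_none hk hl, zero_mul]
      | some p =>
        obtain ⟨M, hM⟩ := ih p.1 (S.lad_lt lam k p hl)
        refine ⟨max M (k + 1), fun ξ hξ => ?_⟩
        rw [S.E_some (hdl ξ fun i hi => hξ i (lt_of_lt_of_le hi (le_max_right _ _))) hl,
          S.E_some hk hl, hM ξ fun i hi => hξ i (lt_of_lt_of_le hi (le_max_left _ _)), mul_assoc]

end Pool.Agent.Lib.MP_45c416_gt.C
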