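import Pool.Agent.Lib.MP_45c416_gt.C.Defs

open Set Filter Topology

namespace Pool.Agent.Lib.MP_45c416_gt.C

/-- **Piece A2.** Ladders at one point `α`: given `D` with `D σ` in the cylinder of `σ` and `D σ ≠ α`.

Proof. `ξ n = D (rs α n) ≠ α` agrees with `α` below `n` (because `Cyl (rs α n) (ξ n)`), let `κ n ≥ n` be the first
difference (`Dl (ξ n) α (κ n)`). The set `KK = range κ` is infinite.  For `k ∈ KK` choose `ν k` with `κ (ν k) = k`;
`ν` is injective on `KK`.  Let `c k = w k * (s (rs α (ν k)))⁻¹`, where `w : ℕ → Circle` is a function all whose tails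
on `KK` are dense (take an order isomorphism `ℕ ≃ KK` (`Nat.Subtype.orderIsoOfNat`, `Nat.nth`) and
a dense sequence of `Circle` in which every value occurs infinitely often, e.g. `fun r => denseSeq Circle r.unpair.1`).
`l k = some (D (rs α (ν k)), c k)` for `k ∈ KK`, `none` otherwise. -/
theorem exists_ladder (α : R2) (D : List Bool → R2) (s : List Bool → Circle)
    (hD : ∀ σ, Cyl σ (D σ)) (hne : ∀ σ, D σ ≠ α) :
    ∃ l : ℕ → Option (R2 × Circle),
      (∀ k p, l k = some p → (∃ σ, p.1 = D σ) ∧ Dl p.1 α k) ∧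
      ∀ (w : Circle) (M : ℕ) (ε : ℝ), 0 < ε →
        ∃ n ≥ M, ∃ k ≥ M, ∃ c : Circle,
          l k = some (D (rs α n), c) ∧ dist (c * s (rs α n)) w < ε := by
  classical
  have hag : ∀ n, ∀ i < n, D (rs α n) i = α i := by
    intro n i hi
    have h := hD (rs α n)
    unfold Cyl at h
    have hlen : (rs α n).length = n := by simp [rs]
    rw [hlen] at h
    have h2 : (rs (D (rs α n)) n)[i]? = (rs α n)[i]? := by rw [h]
    simpa [rs, hi] using h2
  have hdl : ∀ n, ∃ k, Dl (D (rs α n)) α k := fun n => exists_dl (hne _)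
  choose κ hκ using hdl
  have hκn : ∀ n, n ≤ κ n := by
    intro n
    by_contra hlt
    push Not at hlt
    exact (hκ n).2 (hag n _ hlt)
  set KK : Set ℕ := Set.range κ with hKK
  have hinf : KK.Infinite := by
    refine Set.infinite_of_forall_exists_gt (fun a => ⟨κ (a + 1), ⟨a + 1, rfl⟩, ?_⟩)
    have := hκn (a + 1)
    omega
  have hν : ∀ k, ∃ n, k ∈ KK → κ n = k := by
    intro k
    by_cases hk : k ∈ KK
    · obtain ⟨n, hn⟩ := hk
      exact ⟨n, fun _ => hn⟩
    · exact ⟨0, fun h => absurd h hk⟩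
  choose ν hν using hν
  let g : ℕ ↪ KK := Set.Infinite.natEmbedding KK hinf
  have hgi : Function.Injective (fun r => ((g r : KK) : ℕ)) :=
    fun a b hab => g.injective (Subtype.ext hab)
  let wf : ℕ → Circle := fun k =>
    TopologicalSpace.denseSeq Circle (Function.invFun (fun r => ((g r : KK) : ℕ)) k).unpair.1
  have hwf : ∀ i j, wf (g (Nat.pair i j) : ℕ) = TopologicalSpace.denseSeq Circle i := by
    intro i j
    simp only [wf]
    have h := Function.leftInverse_invFun hgi (Nat.pair i j)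
    rw [h, Nat.unpair_pair]
  refine ⟨fun k => if k ∈ KK then
    some (D (rs α (ν k)), wf k * (s (rs α (ν k)))⁻¹) else none, ?_, ?_⟩
  · intro k p hp
    by_cases hk : k ∈ KK
    · simp only [hk, if_true, Option.some.injEq] at hp
      subst hp
      refine ⟨⟨_, rfl⟩, ?_⟩
      have h := hκ (ν k)
      rw [hν k hk] at h
      exact h
    · simp [hk] at hp
  · intro w M ε hε
    obtain ⟨i, hi⟩ := (TopologicalSpace.denseRange_denseSeq Circle).exists_dist_lt w hε
    have hf : Function.Injective (fun j => ((g (Nat.pair i j) : KK) : ℕ)) := by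
      intro a b hab
      have h := hgi hab
      exact (Nat.pair_eq_pair.mp h).2
    have hf2 : Function.Injective (fun j => ν ((g (Nat.pair i j) : KK) : ℕ)) := by
      intro a b hab
      apply hf
      have h1 := hν _ (g (Nat.pair i a)).2
      have h2 := hν _ (g (Nat.pair i b)).2
      have hab' : ν ((g (Nat.pair i a) : KK) : ℕ) = ν ((g (Nat.pair i b) : KK) : ℕ) := hab
      show ((g (Nat.pair i a) : KK) : ℕ) = ((g (Nat.pair i b) : KK) : ℕ)
      rw [← h1, ← h2, hab']
    have hfin1 : ((fun j => ((g (Nat.pair i j) : KK) : ℕ)) ⁻¹' Set.Iio M).Finite :=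
      (Set.finite_Iio M).preimage hf.injOn
    have hfin2 : ((fun j => ν ((g (Nat.pair i j) : KK) : ℕ)) ⁻¹' Set.Iio M).Finite :=
      (Set.finite_Iio M).preimage hf2.injOn
    obtain ⟨j, hj⟩ := (hfin1.union hfin2).exists_notMem
    simp only [Set.mem_union, Set.mem_preimage, Set.mem_Iio, not_or, not_lt] at hj
    refine ⟨ν ((g (Nat.pair i j) : KK) : ℕ), hj.2, ((g (Nat.pair i j) : KK) : ℕ), hj.1,
      wf ((g (Nat.pair i j) : KK) : ℕ) * (s (rs α (ν ((g (Nat.pair i j) : KK) : ℕ))))⁻¹, ?_, ?_⟩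
    · simp [(g (Nat.pair i j)).2]
    · rw [inv_mul_cancel_right, hwf, dist_comm]
      exact hi

end Pool.Agent.Lib.MP_45c416_gt.C
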