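import Pool.Agent.Lib.MP_45c416_gt.C.QQ

open Set Filter Topology

namespace Pool.Agent.Lib.MP_45c416_gt.C

variable {S : Sys} {Z : Type*} [TopologicalSpace Z] [CompactSpace Z] {Y : ℕ → Type*}
  [∀ n, TopologicalSpace (Y n)] [∀ n, CompactSpace (Y n)]

private theorem Lim_num {a b j Na : ℕ} {s t : ℝ} (hs : 0 ≤ s) (ht : t ≤ 2 * Real.pi)
    (hj : Na + 4 ≤ j) (hab : Na = a)
    (h : (1 / 2 : ℝ) ^ a * (1 + s / (4 * Real.pi)) ≤
      (1 / 2) ^ b * (1 + t / (4 * Real.pi)) + 2 * (1 / 2) ^ j) : b ≤ a := by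
  by_contra hlt
  push Not at hlt
  subst hab
  have hpi : (0 : ℝ) < 4 * Real.pi := by positivity
  have h1 : s / (4 * Real.pi) ≥ 0 := by positivity
  have h2 : t / (4 * Real.pi) ≤ 1 / 2 := by
    rw [div_le_iff₀ hpi]; linarith
  have hp : (0 : ℝ) < (1 / 2) ^ Na := by positivity
  have hq : (0 : ℝ) < (1 / 2) ^ b := by positivity
  have h3 : (1 / 2 : ℝ) ^ b ≤ (1 / 2) ^ Na * (1 / 2) := by
    rw [← pow_succ]
    exact pow_le_pow_of_le_one (by norm_num) (by norm_num) hlt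
  have h4 : (1 / 2 : ℝ) ^ j ≤ (1 / 2) ^ Na * (1 / 16) := by
    have : (1 / 2 : ℝ) ^ j ≤ (1 / 2) ^ (Na + 4) :=
      pow_le_pow_of_le_one (by norm_num) (by norm_num) hj
    rw [pow_add] at this
    norm_num at this ⊢
    linarith
  have h5 : (1 / 2 : ℝ) ^ Na * 1 ≤ (1 / 2) ^ Na * (1 + s / (4 * Real.pi)) :=
    mul_le_mul_of_nonneg_left (by linarith) hp.le
  have h6 : (1 / 2 : ℝ) ^ b * (1 + t / (4 * Real.pi)) ≤ (1 / 2) ^ b * (3 / 2) :=
    mul_le_mul_of_nonneg_left (by linarith) hq.le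
  linarith

/-- **Piece L.** Let `α` be a wild limit of the `D (α|n)` marked by the starts of optimal arcs, with nearly maximal values
`2^{-N} (1 + T/(4π))`.  Then every direction over `α` starts a coded arc of length `T α` with a code of type `N α`.

Proof. Fix `w`. By `Wild` choose for each `j` numbers `n j ≥ j`, `κ j ≥ j` and `c j` with `lad α (κ j) = some (D (rs α (n j)), c j)`
and `dist (c j * z (ξ j)) w < 1/(j+1)`, where `ξ j = D (rs α (n j))`; `Dl (ξ j) α (κ j)`, so `ξ j → α`, and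
`E α (ξ j) = c j` (`E_some`, `E_self`).  By `hv`, `2^{-N (ξ j)} (1 + T (ξ j)/(4π)) ≥ 2^{-N α} (1 + T α/(4π)) - 2 (1/2)^{n j}`; as the left side is at
most `1.5 * 2^{-N (ξ j)}`, eventually `N (ξ j) ≤ N α`. So for an ultrafilter `l ≤ atTop` there is `N'` with
`N (ξ j) = N'` for `l`-almost all `j`; `T (ξ j) → T'` along `l` (`Icc` is compact), the codes `y j` with `(z (ξ j), y j) ∈ ArcS (Q k N' (ξ j)) (T (ξ j))`
converge to some `y` (compactness of `Y N'`).  For `0 ≤ θ ≤ T'` put `θ j = min θ (T (ξ j))`; `θ j → θ`;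
`Q_limit` with `w j = z (ξ j) * exp (θ j)`: `w j * E α (ξ j) = z (ξ j) * c j * exp (θ j) → w * exp θ`.  So
`(w, y) ∈ ArcS (Q k N' α) T'`.  By `hN` (`Q k N' α` is nonempty) `N' ≥ N α`, so `N' = N α`, and then `T' ≥ T α` by `hv`. -/
theorem Coding.wild_limit (c : Coding S Z Y) (k : ℕ) (N : R2 → ℕ) (T : R2 → ℝ) (z : R2 → Circle)
    (hT : ∀ α, T α ∈ Icc (0 : ℝ) (2 * Real.pi))
    (hz : ∀ α, ∃ y, (z α, y) ∈ ArcS (c.Q k (N α) α) (T α))
    (hN : ∀ α n, n < N α → c.Q k n α = ∅)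
    (α : R2) (D : List Bool → R2) (hD : ∀ σ, Cyl σ (D σ))
    (hv : ∀ n, (1 / 2) ^ (N α) * (1 + T α / (4 * Real.pi)) ≤
      (1 / 2) ^ (N (D (rs α n))) * (1 + T (D (rs α n)) / (4 * Real.pi)) + 2 * (1 / 2) ^ n)
    (hW : S.Wild D (fun σ => z (D σ)) α) (w : Circle) :
    ∃ y, (w, y) ∈ ArcS (c.Q k (N α) α) (T α) := by
  have hpi : (0 : ℝ) < 4 * Real.pi := by positivity
  have hW' : ∀ j : ℕ, ∃ n ≥ j, ∃ κ ≥ j, ∃ cc : Circle,
      S.lad α κ = some (D (rs α n), cc) ∧ dist (cc * z (D (rs α n))) w < 1 / ((j : ℝ) + 1) :=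
    fun j => hW w j (1 / ((j : ℝ) + 1)) (by positivity)
  choose n hn κ hκ cc hlad hdist using hW'
  obtain ⟨ξ, hξ⟩ : ∃ ξ : ℕ → R2, ∀ j, ξ j = D (rs α (n j)) := ⟨_, fun j => rfl⟩
  simp only [← hξ] at hlad hdist
  have hdl : ∀ j, Dl (ξ j) α (κ j) := fun j => S.lad_dl α (κ j) _ (hlad j)
  have hE : ∀ j, S.E α (ξ j) = (cc j : ℂ) := by
    intro j
    rw [S.E_some (hdl j) (hlad j), S.E_self, mul_one]
  have hξα : Tendsto ξ atTop (𝓝 α) := by
    rw [tendsto_pi_nhds]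
    intro i
    refine tendsto_const_nhds.congr' ?_
    filter_upwards [eventually_gt_atTop i] with j hj
    exact ((hdl j).1 i (lt_of_lt_of_le hj (hκ j))).symm
  have hv' : ∀ j, (1 / 2) ^ (N α) * (1 + T α / (4 * Real.pi)) ≤
      (1 / 2) ^ (N (ξ j)) * (1 + T (ξ j) / (4 * Real.pi)) + 2 * (1 / 2) ^ (n j) := by
    intro j
    rw [hξ j]
    exact hv (n j)
  have hNle : ∀ᶠ j in atTop, N (ξ j) ≤ N α := by
    filter_upwards [eventually_ge_atTop (N α + 4)] with j hj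
    exact Lim_num (hT α).1 (hT (ξ j)).2 (hj.trans (hn j)) rfl (hv' j)
  -- the ultrafilter
  obtain ⟨l, hl⟩ : ∃ l : Ultrafilter ℕ, (l : Filter ℕ) ≤ atTop :=
    ⟨Ultrafilter.of atTop, Ultrafilter.of_le _⟩
  obtain ⟨N', hN'le, hN'⟩ : ∃ N' ≤ N α, ∀ᶠ j in (l : Filter ℕ), N (ξ j) = N' := by
    have hmem : Iic (N α) ∈ l.map (fun j => N (ξ j)) := hl hNle
    obtain ⟨N', hN', he⟩ := Ultrafilter.eq_pure_of_finite_mem (finite_Iic (N α)) hmem
    refine ⟨N', hN', ?_⟩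
    have : ({N'} : Set ℕ) ∈ l.map (fun j => N (ξ j)) := by
      rw [he]; exact Ultrafilter.mem_pure.2 rfl
    exact this
  obtain ⟨T', hT'mem, hT'⟩ : ∃ T' ∈ Icc (0 : ℝ) (2 * Real.pi),
      Tendsto (fun j => T (ξ j)) (l : Filter ℕ) (𝓝 T') := by
    have hc : IsCompact (Icc (0 : ℝ) (2 * Real.pi)) := isCompact_Icc
    have hmem : Icc (0 : ℝ) (2 * Real.pi) ∈ l.map (fun j => T (ξ j)) := by
      rw [Ultrafilter.mem_map]
      exact Filter.Eventually.of_forall (fun j : ℕ => hT (ξ j))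
    obtain ⟨x, hx, hle⟩ := hc.ultrafilter_le_nhds' _ hmem
    exact ⟨x, hx, hle⟩
  obtain ⟨y, hy⟩ : ∃ y : ℕ → Y N', ∀ᶠ j in (l : Filter ℕ),
      (z (ξ j), y j) ∈ ArcS (c.Q k N' (ξ j)) (T (ξ j)) := by
    refine Filter.Eventually.choice
      (r := fun (j : ℕ) (y : Y N') => (z (ξ j), y) ∈ ArcS (c.Q k N' (ξ j)) (T (ξ j))) ?_
    filter_upwards [hN'] with j hj
    subst hj
    exact hz (ξ j)
  obtain ⟨y₀, hy₀⟩ : ∃ y₀, Tendsto y (l : Filter ℕ) (𝓝 y₀) := by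
    obtain ⟨x, -, hle⟩ := (isCompact_univ (X := Y N')).ultrafilter_le_nhds' (l.map y)
      (by exact Filter.univ_mem)
    exact ⟨x, hle⟩
  have hcz : Tendsto (fun j => cc j * z (ξ j)) (l : Filter ℕ) (𝓝 w) := by
    rw [tendsto_iff_dist_tendsto_zero]
    have h0 : Tendsto (fun j : ℕ => 1 / ((j : ℝ) + 1)) (l : Filter ℕ) (𝓝 0) :=
      tendsto_one_div_add_atTop_nhds_zero_nat.mono_left hl
    exact squeeze_zero (fun j => dist_nonneg) (fun j => (hdist j).le) h0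
  have hArc : (w, y₀) ∈ ArcS (c.Q k N' α) T' := by
    intro θ hθ
    have hθj : Tendsto (fun j => min θ (T (ξ j))) (l : Filter ℕ) (𝓝 θ) := by
      have := (tendsto_const_nhds (x := θ) (f := (l : Filter ℕ))).min hT'
      rwa [min_eq_left hθ.2] at this
    refine c.Q_limit k N' (l := (l : Filter ℕ)) ξ
      (fun j => z (ξ j) * Circle.exp (min θ (T (ξ j)))) y α (w * Circle.exp θ) y₀
      (hξα.mono_left hl) ?_ hy₀ ?_
    · have h1 : Tendsto (fun j => cc j * z (ξ j) * Circle.exp (min θ (T (ξ j))))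
          (l : Filter ℕ) (𝓝 (w * Circle.exp θ)) :=
        hcz.mul ((Circle.exp.continuous.tendsto θ).comp hθj)
      have h2 := (((continuous_subtype_val (p := fun x : ℂ => x ∈ Submonoid.unitSphere ℂ)).tendsto _).comp h1)
      refine h2.congr fun j => ?_
      simp only [Function.comp_apply, Circle.coe_mul]
      rw [hE j]
      ring
    · filter_upwards [hy] with j hj
      exact hj (min θ (T (ξ j))) ⟨le_min hθ.1 (hT (ξ j)).1, min_le_right _ _⟩
  have hNN : N' = N α := by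
    refine le_antisymm hN'le ?_
    by_contra hlt
    push Not at hlt
    have h0 := hArc 0 ⟨le_rfl, hT'mem.1⟩
    rw [hN α N' hlt] at h0
    exact h0
  subst hNN
  have hTT : T α ≤ T' := by
    have hlim : Tendsto (fun j => (1 / 2 : ℝ) ^ (N α) * (1 + T (ξ j) / (4 * Real.pi)) +
        2 * (1 / 2) ^ (n j)) (l : Filter ℕ)
        (𝓝 ((1 / 2 : ℝ) ^ (N α) * (1 + T' / (4 * Real.pi)) + 2 * 0)) := by
      refine Tendsto.add ?_ ?_
      · exact ((hT'.div_const _).const_add _).const_mul _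
      · refine Tendsto.const_mul _ ?_
        have hnt : Tendsto n (l : Filter ℕ) atTop :=
          tendsto_atTop_mono hn (tendsto_id.mono_left hl)
        exact (tendsto_pow_atTop_nhds_zero_of_lt_one (by norm_num) (by norm_num)).comp hnt
    have hle : (1 / 2 : ℝ) ^ (N α) * (1 + T α / (4 * Real.pi)) ≤
        (1 / 2 : ℝ) ^ (N α) * (1 + T' / (4 * Real.pi)) + 2 * 0 := by
      refine ge_of_tendsto hlim ?_
      filter_upwards [hN'] with j hj
      have := hv' j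
      rwa [hj] at this
    have hp : (0 : ℝ) < (1 / 2) ^ (N α) := by positivity
    rw [mul_zero, add_zero] at hle
    have h1 := le_of_mul_le_mul_left hle hp
    have h2 : T α / (4 * Real.pi) ≤ T' / (4 * Real.pi) := by linarith
    exact (div_le_div_iff_of_pos_right hpi).1 h2
  exact ⟨y₀, fun θ hθ => hArc θ ⟨hθ.1, hθ.2.trans hTT⟩⟩

end Pool.Agent.Lib.MP_45c416_gt.C
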