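import Pool.Agent.Lib.MP_45c416_gt.C.EE

open Set Filter Topology

namespace Pool.Agent.Lib.MP_45c416_gt.C

variable (S : Sys)

theorem Limit_eventually_agree (μ : R2) (M : ℕ) : ∀ᶠ ξ in 𝓝 μ, ∀ i < M, ξ i = μ i := by
  have h : ∀ i : ℕ, ∀ᶠ ξ in 𝓝 μ, ξ i = μ i := by
    intro i
    have h1 : Tendsto (fun ξ : R2 => ξ i) (𝓝 μ) (𝓝 (μ i)) := (continuous_apply i).tendsto μ
    have h2 : ({μ i} : Set Bool) ∈ 𝓝 (μ i) := by simp
    exact h1 h2
  have h3 : ∀ᶠ ξ in 𝓝 μ, ∀ i ∈ (Finset.range M : Set ℕ), ξ i = μ i :=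
    (Filter.eventually_all_finite (Finset.finite_toSet _)).2 fun i _ => h i
  filter_upwards [h3] with ξ hξ i hi
  exact hξ i (by simpa using hi)

/-- **Piece K1.** Convergence: if `ξ j → μ` in the Cantor space and `w j * E μ (ξ j) → w` then
`Phi (ξ j) (w j) → Phi μ w` (coordinatewise, by `E_mul`). -/
theorem Sys.tendsto_Phi {ι : Type*} {l : Filter ι} (ξ : ι → R2) (w : ι → ℂ) (μ : R2) (w₀ : ℂ)
    (h1 : Tendsto ξ l (𝓝 μ)) (h2 : Tendsto (fun j => w j * S.E μ (ξ j)) l (𝓝 w₀)) :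
    Tendsto (fun j => S.Phi (ξ j) (w j)) l (𝓝 (S.Phi μ w₀)) := by
  rw [tendsto_pi_nhds]
  intro β
  obtain ⟨M, hM⟩ := S.E_mul β μ
  have h3 : ∀ᶠ j in l, ∀ i < M, ξ j i = μ i := h1.eventually (Limit_eventually_agree μ M)
  have h4 : Tendsto (fun j => (w j * S.E μ (ξ j)) * S.E β μ) l (𝓝 (w₀ * S.E β μ)) :=
    h2.mul_const _
  refine h4.congr' ?_
  filter_upwards [h3] with j hj
  simp only [Sys.Phi]
  rw [hM (ξ j) hj]
  ring

theorem Limit_isCompact_vals : IsCompact {w : ℂ | w = 0 ∨ ‖w‖ = 1} := by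
  have h : {w : ℂ | w = 0 ∨ ‖w‖ = 1} = {0} ∪ Metric.sphere (0 : ℂ) 1 := by
    ext w
    simp
  rw [h]
  exact isCompact_singleton.union (isCompact_sphere 0 1)

/-- **Piece K2.** `KSet` is compact. Proof: ultrafilters (`isCompact_iff_ultrafilter_le_nhds`): choose `μ g`, `w g` for
`g ∈ KSet`; along the ultrafilter `μ g → μ` (`R2` is compact) and `w g * E μ (μ g)`, which has norm 0 or 1,
converges to some `w₀` of norm 0 or 1 (this set is compact); apply `tendsto_Phi`. -/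
theorem Sys.isCompact_KSet : IsCompact S.KSet := by
  classical
  rw [isCompact_iff_ultrafilter_le_nhds]
  intro f hf
  have hf' : S.KSet ∈ (f : Filter (R2 → ℂ)) := by simpa using hf
  -- choose the parameters
  have hch : ∀ g : R2 → ℂ, ∃ q : R2 × ℂ, g ∈ S.KSet → (q.2 = 0 ∨ ‖q.2‖ = 1) ∧ g = S.Phi q.1 q.2 := by
    intro g
    by_cases hg : g ∈ S.KSet
    · obtain ⟨μ, w, hw, hgw⟩ := hg
      exact ⟨(μ, w), fun _ => ⟨hw, hgw⟩⟩
    · exact ⟨(fun _ => false, 0), fun h => absurd h hg⟩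
  choose q hq using hch
  -- the limit of the base points
  obtain ⟨μ, -, hμ⟩ := (isCompact_univ : IsCompact (univ : Set R2)).ultrafilter_le_nhds
    (f.map fun g => (q g).1) (by simp)
  have hμ' : Tendsto (fun g => (q g).1) (f : Filter (R2 → ℂ)) (𝓝 μ) := hμ
  -- the limit of the coordinates
  have hval : ∀ g ∈ S.KSet, (q g).2 * S.E μ (q g).1 ∈ {w : ℂ | w = 0 ∨ ‖w‖ = 1} := by
    intro g hg
    rcases (hq g hg).1 with h | h
    · left
      rw [h, zero_mul]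
    · rcases S.E_norm μ (q g).1 with h' | h'
      · left
        rw [h', mul_zero]
      · right
        rw [norm_mul, h, h', mul_one]
  obtain ⟨w₀, hw₀, hw₀'⟩ := Limit_isCompact_vals.ultrafilter_le_nhds
    (f.map fun g => (q g).2 * S.E μ (q g).1) (by
      rw [le_principal_iff]
      change (fun g => (q g).2 * S.E μ (q g).1) ⁻¹' _ ∈ (f : Filter (R2 → ℂ))
      exact Filter.mem_of_superset hf' hval)
  have hw₀'' : Tendsto (fun g => (q g).2 * S.E μ (q g).1) (f : Filter (R2 → ℂ)) (𝓝 w₀) := hw₀'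
  refine ⟨S.Phi μ w₀, ⟨μ, w₀, hw₀, rfl⟩, ?_⟩
  have ht := S.tendsto_Phi (l := (f : Filter (R2 → ℂ))) (fun g => (q g).1) (fun g => (q g).2) μ w₀
    hμ' hw₀''
  have ht' : Tendsto (fun g : R2 → ℂ => g) (f : Filter (R2 → ℂ)) (𝓝 (S.Phi μ w₀)) := by
    refine ht.congr' ?_
    filter_upwards [hf'] with g hg
    exact (hq g hg).2.symm
  exact ht'

end Pool.Agent.Lib.MP_45c416_gt.C
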