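import Pool.Agent.Lib.MP_45c416_gt.C.Atom
import Pool.Agent.Lib.MP_45c416_gt.C.Abs

open Set Filter Topology

namespace Pool.Agent.Lib.MP_45c416_gt.C

universe u

section

variable (S : Type u) [TopologicalSpace S] [CompactSpace S]

/-- The unit ball is weak* compact. -/
theorem isCompact_M1 : IsCompact (M1 S) := by
  have h := WeakDual.isCompact_closedBall (0 : StrongDual ℝ C(S, ℝ)) 1
  have he : (M1 S : Set (WeakDual ℝ C(S, ℝ))) =
      WeakDual.toStrongDual ⁻¹' Metric.closedBall (0 : StrongDual ℝ C(S, ℝ)) 1 := by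
    ext φ
    rw [Set.mem_preimage, mem_closedBall_zero_iff (E := StrongDual ℝ C(S, ℝ))]
    change (∀ f : C(S, ℝ), |φ f| ≤ ‖f‖) ↔ _
    constructor
    · intro h
      apply ContinuousLinearMap.opNorm_le_bound _ zero_le_one
      intro f
      rw [one_mul]
      exact h f
    · intro h f
      have h1 := (WeakDual.toStrongDual φ).le_opNorm f
      calc |φ f| = ‖(WeakDual.toStrongDual φ) f‖ := rfl
        _ ≤ ‖WeakDual.toStrongDual φ‖ * ‖f‖ := h1
        _ ≤ 1 * ‖f‖ := mul_le_mul_of_nonneg_right h (norm_nonneg _)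
        _ = ‖f‖ := one_mul _
  rw [he]
  exact h

omit [CompactSpace S] in
theorem continuous_eval_weak (f : C(S, ℝ)) : Continuous fun φ : WeakDual ℝ C(S, ℝ) => φ f :=
  WeakBilin.eval_continuous _ f

end

/-- A continuous surjection from a closed subset of `M₁(S)`, `S` scattered compact, gives a
coding. -/
theorem no_surjection (Sy : Sys) (hSy : Sy.Rich) (S : Type u) [TopologicalSpace S] [CompactSpace S]
    [T2Space S] (hS : IsScattered S) (Z : Set (M1 S)) (hZ : IsClosed Z) (p : Z → Sy.KSet)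
    (hp : Continuous p) (hsurj : Function.Surjective p) : False := by
  classical
  have : CompactSpace (M1 S) := isCompact_iff_compactSpace.mp (isCompact_M1 S)
  have : CompactSpace Z := isCompact_iff_compactSpace.mp hZ.isCompact
  obtain ⟨F, hF⟩ := exists_surjective_nat (Σ l : ℕ, (Fin l → ℚ))
  have hev : ∀ f : C(S, ℝ), Continuous fun z : Z => (z.1.1 : WeakDual ℝ C(S, ℝ)) f := fun f =>
    (continuous_eval_weak S f).comp (continuous_subtype_val.comp continuous_subtype_val)
  let near : ℕ → Z → Z → Prop := fun k z z' =>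
    ∀ f : C(S, ℝ), |(z.1.1 : WeakDual ℝ C(S, ℝ)) f - (z'.1.1 : WeakDual ℝ C(S, ℝ)) f| ≤
      1 / ((k : ℝ) + 1) * ‖f‖
  let Cd : ℕ → ∀ n : ℕ, Set (Z × (Fin (F n).1 → S)) := fun k n =>
    {q | ∀ f : C(S, ℝ), |(q.1.1.1 : WeakDual ℝ C(S, ℝ)) f - ∑ i, ((F n).2 i : ℝ) * f (q.2 i)| ≤
      1 / (2 * ((k : ℝ) + 1)) * ‖f‖}
  let c : Coding Sy Z (fun n => Fin (F n).1 → S) :=
    { p := fun z => (p z : R2 → ℂ)
      p_cont := continuous_subtype_val.comp hp
      p_surj := fun g hg => by
        obtain ⟨z, hz⟩ := hsurj ⟨g, hg⟩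
        exact ⟨z, by rw [hz]⟩
      near := near
      near_closed := fun k => by
        have : {q : Z × Z | near k q.1 q.2} = ⋂ f : C(S, ℝ), {q : Z × Z |
            |(q.1.1.1 : WeakDual ℝ C(S, ℝ)) f - (q.2.1.1 : WeakDual ℝ C(S, ℝ)) f| ≤
              1 / ((k : ℝ) + 1) * ‖f‖} := by
          ext q
          simp only [near, Set.mem_setOf_eq, Set.mem_iInter]
        rw [this]
        exact isClosed_iInter fun f => isClosed_le
          ((((hev f).comp continuous_fst).sub ((hev f).comp continuous_snd)).abs)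
          continuous_const
      near_eq := fun z z' h => by
        apply Subtype.ext
        apply Subtype.ext
        apply DFunLike.ext
        intro f
        have h1 : ∀ k : ℕ, |(z.1.1 : WeakDual ℝ C(S, ℝ)) f - (z'.1.1 : WeakDual ℝ C(S, ℝ)) f| ≤
            1 / ((k : ℝ) + 1) * ‖f‖ := fun k => h k f
        have h2 : Tendsto (fun k : ℕ => 1 / ((k : ℝ) + 1) * ‖f‖) atTop (𝓝 (0 * ‖f‖)) :=
          tendsto_one_div_add_atTop_nhds_zero_nat.mul_const _
        have h3 := ge_of_tendsto' h2 h1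
        rw [zero_mul] at h3
        exact sub_eq_zero.mp (abs_eq_zero.mp (le_antisymm h3 (abs_nonneg _)))
      near_mono := fun k l z z' hkl h f => by
        refine (h f).trans (mul_le_mul_of_nonneg_right ?_ (norm_nonneg _))
        apply one_div_le_one_div_of_le (by positivity)
        have : (k : ℝ) ≤ l := by exact_mod_cast hkl
        linarith
      Cd := Cd
      Cd_closed := fun k n => by
        have : Cd k n = ⋂ f : C(S, ℝ), {q : Z × (Fin (F n).1 → S) |
            |(q.1.1.1 : WeakDual ℝ C(S, ℝ)) f - ∑ i, ((F n).2 i : ℝ) * f (q.2 i)| ≤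
              1 / (2 * ((k : ℝ) + 1)) * ‖f‖} := by
          ext q
          simp only [Cd, Set.mem_setOf_eq, Set.mem_iInter]
        rw [this]
        refine isClosed_iInter fun f => isClosed_le ?_ continuous_const
        refine (((hev f).comp continuous_fst).sub ?_).abs
        exact continuous_finsetSum _ fun i _ => continuous_const.mul
          (f.continuous.comp ((continuous_apply i).comp continuous_snd))
      Cd_cover := fun k z => by
        obtain ⟨l, a, s, hs⟩ := exists_approx hS z.1.1 z.1.2 (1 / (2 * ((k : ℝ) + 1)))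
          (by positivity)
        obtain ⟨n, hn⟩ := hF ⟨l, a⟩
        have key : ∀ m : Σ l : ℕ, (Fin l → ℚ), m = ⟨l, a⟩ → ∃ y : Fin m.1 → S,
            ∀ f : C(S, ℝ), |(z.1.1 : WeakDual ℝ C(S, ℝ)) f - ∑ i, (m.2 i : ℝ) * f (y i)| ≤
              1 / (2 * ((k : ℝ) + 1)) * ‖f‖ := by
          rintro m rfl
          exact ⟨s, hs⟩
        obtain ⟨y, hy⟩ := key (F n) hn
        exact ⟨n, y, hy⟩
      Cd_near := fun k n z z' y h h' f => by
        have h1 := h f
        have h2 := h' f
        have h3 : (1 : ℝ) / ((k : ℝ) + 1) * ‖f‖ = 1 / (2 * ((k : ℝ) + 1)) * ‖f‖ +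
            1 / (2 * ((k : ℝ) + 1)) * ‖f‖ := by
          field_simp
          ring
        rw [h3]
        rw [abs_sub_comm] at h2
        calc |(z.1.1 : WeakDual ℝ C(S, ℝ)) f - (z'.1.1 : WeakDual ℝ C(S, ℝ)) f|
            ≤ |(z.1.1 : WeakDual ℝ C(S, ℝ)) f - ∑ i, ((F n).2 i : ℝ) * f (y i)| +
              |∑ i, ((F n).2 i : ℝ) * f (y i) - (z'.1.1 : WeakDual ℝ C(S, ℝ)) f| :=
              abs_sub_le _ _ _
          _ ≤ _ := add_le_add h1 h2 }
  exact c.false hSy fun n => isScattered_pi hS _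

end Pool.Agent.Lib.MP_45c416_gt.C
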