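import Pool.Agent.Lib.MP_45c416_gt.C.Limit

open Set Filter Topology

namespace Pool.Agent.Lib.MP_45c416_gt.C

variable {S : Sys} {Z : Type*} [TopologicalSpace Z] [CompactSpace Z] {Y : ℕ → Type*}
  [∀ n, TopologicalSpace (Y n)] [∀ n, CompactSpace (Y n)]

omit [∀ n, CompactSpace (Y n)] in
theorem QQ_rel_closed (c : Coding S Z Y) (k n : ℕ) :
    IsClosed {q : (R2 → ℂ) × Y n | ∃ z, c.p z = q.1 ∧ (z, q.2) ∈ c.Cd k n} := by
  have h0 : IsClosed {r : Z × ((R2 → ℂ) × Y n) | c.p r.1 = r.2.1 ∧ (r.1, r.2.2) ∈ c.Cd k n} := by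
    have h1 : Continuous fun r : Z × ((R2 → ℂ) × Y n) => c.p r.1 :=
      c.p_cont.comp continuous_fst
    have h2 : Continuous fun r : Z × ((R2 → ℂ) × Y n) => r.2.1 :=
      continuous_fst.comp continuous_snd
    have h3 : Continuous fun r : Z × ((R2 → ℂ) × Y n) => (r.1, r.2.2) :=
      continuous_fst.prodMk (continuous_snd.comp continuous_snd)
    exact (isClosed_eq h1 h2).inter ((c.Cd_closed k n).preimage h3)
  have h4 := isClosedMap_snd_of_compactSpace _ h0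
  have h5 : Prod.snd '' {r : Z × ((R2 → ℂ) × Y n) | c.p r.1 = r.2.1 ∧ (r.1, r.2.2) ∈ c.Cd k n} =
      {q : (R2 → ℂ) × Y n | ∃ z, c.p z = q.1 ∧ (z, q.2) ∈ c.Cd k n} := by
    ext q
    constructor
    · rintro ⟨⟨z, q'⟩, hz, rfl⟩
      exact ⟨z, hz⟩
    · rintro ⟨z, hz⟩
      exact ⟨(z, q), hz, rfl⟩
  rwa [h5] at h4

/-- **Piece Q1.** Limits of codes stay codes: the relation `{(g, y) | ∃ z, p z = g ∧ (z, y) ∈ Cd k n}` is closed in
`(R2 → ℂ) × Y n` (image of the closed set `Cd k n` of `Z × Y n` under `(z, y) ↦ (p z, y)`, `Z` compact), then `tendsto_Phi`. -/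
theorem Coding.Q_limit (c : Coding S Z Y) (k n : ℕ) {ι : Type*} {l : Filter ι} [NeBot l]
    (ξ : ι → R2) (w : ι → Circle) (y : ι → Y n) (μ : R2) (w₀ : Circle) (y₀ : Y n)
    (h1 : Tendsto ξ l (𝓝 μ)) (h2 : Tendsto (fun j => (w j : ℂ) * S.E μ (ξ j)) l (𝓝 (w₀ : ℂ)))
    (h3 : Tendsto y l (𝓝 y₀)) (h : ∀ᶠ j in l, (w j, y j) ∈ c.Q k n (ξ j)) :
    (w₀, y₀) ∈ c.Q k n μ := by
  have h4 := (S.tendsto_Phi ξ (fun j => (w j : ℂ)) μ w₀ h1 h2).prodMk_nhds h3
  exact (QQ_rel_closed c k n).mem_of_tendsto h4 h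

/-- **Piece Q2.** (from Q1 with the constant function `ξ = α`, `E_self`; closedness through ultrafilters or sequences of nets,
`isClosed_iff_clusterPt` / `isClosed_iff_ultrafilter`.) -/
theorem Coding.Q_closed (c : Coding S Z Y) (k n : ℕ) (α : R2) : IsClosed (c.Q k n α) := by
  have h1 : Continuous fun q : Circle × Y n => (S.Phi α (q.1 : ℂ), q.2) := by
    refine Continuous.prodMk (continuous_pi fun β => ?_) continuous_snd
    exact ((continuous_subtype_val : Continuous fun w : Circle => (w : ℂ)).comp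
      continuous_fst).mul continuous_const
  exact (QQ_rel_closed c k n).preimage h1

/-- **Piece Q3.** Every direction has a code (`p_surj`, `Cd_cover`). -/
theorem Coding.Q_cover (c : Coding S Z Y) (k : ℕ) (α : R2) (w : Circle) :
    ∃ n, ∃ y, (w, y) ∈ c.Q k n α := by
  obtain ⟨z, hz⟩ := c.p_surj (S.Phi α w) ⟨α, w, Or.inr (Circle.norm_coe w), rfl⟩
  obtain ⟨n, y, hy⟩ := c.Cd_cover k z
  exact ⟨n, y, z, hz, hy⟩

theorem QQ_exp (u : Circle) : ∃ θ ∈ Icc (0 : ℝ) (2 * Real.pi), Circle.exp θ = u := by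
  have h1 : Circle.exp (Complex.arg (u : ℂ)) = u := Circle.exp_arg u
  have h2 := Complex.arg_le_pi (u : ℂ)
  have h3 := Complex.neg_pi_lt_arg (u : ℂ)
  have h4 := Real.pi_pos
  rcases le_total 0 (Complex.arg (u : ℂ)) with h | h
  · exact ⟨_, ⟨h, by linarith⟩, h1⟩
  · refine ⟨Complex.arg (u : ℂ) + 2 * Real.pi, ⟨by linarith, by linarith⟩, ?_⟩
    rw [Circle.exp_add, h1, Circle.exp_two_pi, mul_one]

/-- **Piece Q4.** No full circle is coded over a point that is reached from `I k`.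

Proof. Let `β ∈ I k`, `e = E β α`, `‖e‖ = 1`. If `(w, y) ∈ ArcS (Q k n α) (2π)` then all `u : Circle` are `w * exp θ`, `θ ∈ [0, 2π]`, so
`(u, y) ∈ Q k n α` for all `u`. Take `u = e⁻¹` and `u = -e⁻¹`: `z`, `z'` with `p z = Phi α u`, so `p z β = u * e = 1`,
`p z' β = -1`, and `near k z z'` by `Cd_near`. Contradiction with `β ∈ I k`. -/
theorem Coding.no_full (c : Coding S Z Y) (k n : ℕ) (α β : R2) (hβ : β ∈ c.I k)
    (hE : S.E β α ≠ 0) : ArcS (c.Q k n α) (2 * Real.pi) = ∅ := by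
  rw [Set.eq_empty_iff_forall_notMem]
  rintro ⟨w, y⟩ hw
  have he : ‖S.E β α‖ = 1 := (S.E_norm β α).resolve_left hE
  have hall : ∀ u : Circle, (u, y) ∈ c.Q k n α := by
    intro u
    obtain ⟨θ, hθ, h⟩ := QQ_exp (w⁻¹ * u)
    have := hw θ hθ
    rw [h] at this
    simpa using this
  have e1 : ((S.E β α)⁻¹ : ℂ) ∈ Submonoid.unitSphere ℂ := by
    simp [Submonoid.unitSphere, he]
  have e2 : (-(S.E β α)⁻¹ : ℂ) ∈ Submonoid.unitSphere ℂ := by
    simp [Submonoid.unitSphere, he]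
  obtain ⟨z, hz, hzy⟩ := hall ⟨_, e1⟩
  obtain ⟨z', hz', hzy'⟩ := hall ⟨_, e2⟩
  refine hβ z z' ?_ ?_ (c.Cd_near k n z z' y hzy hzy')
  · rw [hz]
    exact inv_mul_cancel₀ hE
  · rw [hz']
    change -(S.E β α)⁻¹ * S.E β α = -1
    rw [neg_mul, inv_mul_cancel₀ hE]

end Pool.Agent.Lib.MP_45c416_gt.C
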