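import Pool.Agent.Lib.MP_45c416_gt.C.Limit

open Set Filter Topology

namespace Pool.Agent.Lib.MP_45c416_gt.C

variable (S : Sys)

private theorem RN_E_le (S : Sys) (β ξ : R2) : ‖S.E β ξ‖ ≤ 1 := by
  rcases S.E_norm β ξ with h | h
  · rw [h, norm_zero]
    exact zero_le_one
  · exact h.le

private theorem RN_val_le (S : Sys) (g : S.KSet) (β : R2) : ‖g.1 β‖ ≤ 1 := by
  obtain ⟨μ, w, hw, hg⟩ := g.2
  rw [hg]
  show ‖w * S.E β μ‖ ≤ 1
  rw [norm_mul]
  have h1 := RN_E_le S β μ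
  have h2 : ‖w‖ ≤ 1 := by
    rcases hw with h | h
    · rw [h, norm_zero]
      exact zero_le_one
    · exact h.le
  calc ‖w‖ * ‖S.E β μ‖ ≤ 1 * 1 := mul_le_mul h2 h1 (norm_nonneg _) zero_le_one
    _ = 1 := one_mul 1

private theorem RN_bdd (S : Sys) (g h : S.KSet) :
    BddAbove (range fun β : R2 => ‖g.1 β - h.1 β‖) := by
  refine ⟨2, ?_⟩
  rintro _ ⟨β, rfl⟩
  show ‖g.1 β - h.1 β‖ ≤ 2
  have h1 := norm_sub_le (g.1 β) (h.1 β)
  have h2 := RN_val_le S g β
  have h3 := RN_val_le S h β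
  linarith

/-- the supremum metric -/
private noncomputable def RN_d (S : Sys) (g h : S.KSet) : ℝ := ⨆ β : R2, ‖g.1 β - h.1 β‖

private theorem RN_le (S : Sys) (g h : S.KSet) (β : R2) : ‖g.1 β - h.1 β‖ ≤ RN_d S g h :=
  le_ciSup (RN_bdd S g h) β

private theorem RN_d_self (S : Sys) (g : S.KSet) : RN_d S g g = 0 := by
  unfold RN_d
  simp only [sub_self, norm_zero]
  exact ciSup_const

private theorem RN_metric (S : Sys) : IsMetric (RN_d S) := by
  refine ⟨fun x y => Real.iSup_nonneg fun β => norm_nonneg _, fun x y => ⟨fun h => ?_, ?_⟩,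
    fun x y => ?_, fun x y z => ?_⟩
  · apply Subtype.ext
    funext β
    have h1 := RN_le S x y β
    rw [h] at h1
    exact sub_eq_zero.1 (norm_eq_zero.1 (le_antisymm h1 (norm_nonneg _)))
  · rintro rfl
    exact RN_d_self S x
  · unfold RN_d
    congr 1
    funext β
    exact norm_sub_rev _ _
  · refine ciSup_le fun β => ?_
    have h1 : x.1 β - z.1 β = (x.1 β - y.1 β) + (y.1 β - z.1 β) := by ring
    rw [h1]
    exact (norm_add_le _ _).trans (add_le_add (RN_le S x y β) (RN_le S y z β))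

private theorem RN_lsc (S : Sys) :
    LowerSemicontinuous (fun p : S.KSet × S.KSet => RN_d S p.1 p.2) := by
  unfold RN_d
  refine lowerSemicontinuous_ciSup (fun p => RN_bdd S p.1 p.2) fun β => ?_
  apply Continuous.lowerSemicontinuous
  have h1 : Continuous fun p : S.KSet × S.KSet => p.1.1 β :=
    (continuous_apply β).comp (continuous_subtype_val.comp continuous_fst)
  have h2 : Continuous fun p : S.KSet × S.KSet => p.2.1 β :=
    (continuous_apply β).comp (continuous_subtype_val.comp continuous_snd)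
  exact (h1.sub h2).norm

private theorem RN_frag (S : Sys) : Fragments (RN_d S) := by
  intro L hL ε hε
  let P : Set R2 := {μ | ∃ w : ℂ, ‖w‖ = 1 ∧ ∃ g ∈ L, (g : S.KSet).1 = S.Phi μ w}
  by_cases hP : P.Nonempty
  · obtain ⟨μ, ⟨w, hw, g0, hg0, hg0e⟩, hmin⟩ := S.wf.has_min P hP
    have hval : ∀ w' : ℂ, S.Phi μ w' μ = w' := by
      intro w'
      show w' * S.E μ μ = w'
      rw [S.E_self, mul_one]
    have hcont : Continuous fun g : S.KSet => g.1 μ :=
      (continuous_apply μ).comp continuous_subtype_val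
    refine ⟨{g | g.1 μ ≠ 0 ∧ ‖g.1 μ - w‖ < ε / 3}, ?_, ⟨g0, ?_, hg0⟩, 2 * ε / 3, by linarith, ?_⟩
    · exact (isOpen_ne_fun hcont continuous_const).inter
        (isOpen_lt (hcont.sub continuous_const).norm continuous_const)
    · show g0.1 μ ≠ 0 ∧ ‖g0.1 μ - w‖ < ε / 3
      rw [hg0e, hval, sub_self, norm_zero]
      refine ⟨?_, by linarith⟩
      rintro rfl
      rw [norm_zero] at hw
      exact zero_ne_one hw
    · have key : ∀ g : S.KSet, (g.1 μ ≠ 0 ∧ ‖g.1 μ - w‖ < ε / 3) → g ∈ L →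
          ∃ w' : ℂ, g.1 = S.Phi μ w' ∧ ‖w' - w‖ < ε / 3 := by
        rintro g ⟨h1, h2⟩ hgL
        obtain ⟨μ', w', hw', hg⟩ := g.2
        rw [hg] at h1 h2
        have h3 : w' * S.E μ μ' ≠ 0 := h1
        have h4 : w' ≠ 0 := left_ne_zero_of_mul h3
        have h5 : S.E μ μ' ≠ 0 := right_ne_zero_of_mul h3
        have h6 : ‖w'‖ = 1 := hw'.resolve_left h4
        have h7 : μ' = μ := by
          rcases S.lt_of_E μ μ' h5 with h | h
          · exact h
          · exact absurd h (hmin μ' ⟨w', h6, g, hgL, hg⟩)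
        rw [h7] at hg h2
        rw [hval] at h2
        exact ⟨w', hg, h2⟩
      rintro x ⟨hx, hxL⟩ y ⟨hy, hyL⟩
      obtain ⟨a, ha, ha'⟩ := key x hx hxL
      obtain ⟨b, hb, hb'⟩ := key y hy hyL
      refine ciSup_le fun β => ?_
      rw [ha, hb]
      show ‖a * S.E β μ - b * S.E β μ‖ ≤ 2 * ε / 3
      rw [← sub_mul, norm_mul]
      have h1 : ‖a - b‖ ≤ 2 * ε / 3 := by
        have h2 : a - b = (a - w) - (b - w) := by ring
        rw [h2]
        refine (norm_sub_le _ _).trans ?_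
        linarith
      have h3 := RN_E_le S β μ
      calc ‖a - b‖ * ‖S.E β μ‖ ≤ ‖a - b‖ * 1 := mul_le_mul_of_nonneg_left h3 (norm_nonneg _)
        _ = ‖a - b‖ := mul_one _
        _ ≤ 2 * ε / 3 := h1
  · have h0 : ∀ g ∈ L, ∀ β, g.1 β = 0 := by
      intro g hg β
      obtain ⟨μ, w, hw, he⟩ := g.2
      rcases hw with h | h
      · rw [he, h]
        show (0 : ℂ) * S.E β μ = 0
        rw [zero_mul]
      · exact absurd ⟨μ, w, h, g, hg, he⟩ hP
    obtain ⟨g, hg⟩ := hL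
    refine ⟨univ, isOpen_univ, ⟨g, mem_univ g, hg⟩, 0, hε, ?_⟩
    rintro x ⟨-, hx⟩ y ⟨-, hy⟩
    refine ciSup_le fun β => ?_
    rw [h0 x hx β, h0 y hy β, sub_self, norm_zero]

/-- **Piece RN.** `KSet` is a Radon-Nikodym compact space.

Proof. Compact by `isCompact_KSet` (`isCompact_iff_compactSpace`), Hausdorff as a subspace of `R2 → ℂ`. Metric
`d g h = ⨆ β, ‖g β - h β‖` (bounded by 2 on `KSet`, since `‖Phi μ w β‖ ≤ 1`); lower semicontinuous as a
supremum of continuous functions (`lowerSemicontinuous_ciSup`).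
Fragments: let `L` be nonempty. If some `g ∈ L` is of the form `Phi μ w` with `‖w‖ = 1`, let `μ` be the `S.lt`-least
such base (`S.wf.min` / `WellFounded.has_min`). Open set `U = {g | g μ ≠ 0 ∧ ‖g μ - w‖ < ε / 3}`.  If `g = Phi μ' w' ∈ U ∩ L`, then
`E μ μ' ≠ 0`, so `μ' = μ` or `lt μ' μ` (`lt_of_E`), and minimality gives `μ' = μ`; so elements of `U ∩ L` are `Phi μ w'`,
`‖w' - w‖ < ε / 3`, `d (Phi μ w') (Phi μ w'') ≤ ‖w' - w''‖ ≤ 2 ε / 3 < ε`.  Otherwise `L ⊆ {0}` and `U = univ` works. -/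
theorem Sys.isRN : IsRNCompact S.KSet :=
  ⟨isCompact_iff_compactSpace.1 S.isCompact_KSet, inferInstance, RN_d S, RN_metric S, RN_lsc S,
    RN_frag S⟩

end Pool.Agent.Lib.MP_45c416_gt.C
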