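import Pool.Agent.Lib.MP_45c416_gt.C.Wo
import Pool.Agent.Lib.MP_45c416_gt.C.Lad

open Set Filter Topology

namespace Pool.Agent.Lib.MP_45c416_gt.C

/-- A rich system exists. -/
theorem exists_rich : ∃ S : Sys, S.Rich := by
  classical
  obtain ⟨r, hwo, hB, tau, htau⟩ := exists_wo
  have hladder : ∀ α : R2, ∃ l : ℕ → Option (R2 × Circle),
      (∀ k p, l k = some p → r p.1 α ∧ Dl p.1 α k) ∧
      ((∀ σ, Cyl σ ((tau α).1 σ)) → (∀ σ, r ((tau α).1 σ) α) →
        ∀ (w : Circle) (M : ℕ) (ε : ℝ), 0 < ε →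
        ∃ n ≥ M, ∃ k ≥ M, ∃ c : Circle,
          l k = some ((tau α).1 (rs α n), c) ∧ dist (c * (tau α).2 (rs α n)) w < ε) := by
    intro α
    by_cases h : (∀ σ, Cyl σ ((tau α).1 σ)) ∧ ∀ σ, r ((tau α).1 σ) α
    · obtain ⟨l, hl1, hl2⟩ := exists_ladder α (tau α).1 (tau α).2 h.1 (fun σ e => by
        have := h.2 σ
        rw [e] at this
        exact hwo.toIsWellFounded.wf.asymmetric α α this this)
      refine ⟨l, fun k p hp => ?_, fun _ _ => hl2⟩
      obtain ⟨⟨σ, hσ⟩, hd⟩ := hl1 k p hp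
      exact ⟨by rw [hσ]; exact h.2 σ, hd⟩
    · refine ⟨fun _ => none, fun k p hp => by simp at hp, fun h1 h2 => absurd ⟨h1, h2⟩ h⟩
  choose lad h1 h2 using hladder
  refine ⟨⟨r, hwo, lad, fun α k p hp => (h1 α k p hp).1, fun α k p hp => (h1 α k p hp).2⟩, ?_⟩
  intro D s a σ₀ hD
  -- one bound for the countable set of the `a n` and the `D σ`
  obtain ⟨b, hb⟩ := hB a
  obtain ⟨e, he⟩ := exists_surjective_nat (List Bool)
  obtain ⟨b', hb'⟩ := hB fun n => D (e n)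
  obtain ⟨b'', hb''⟩ := hB fun n => if n = 0 then b else b'
  have hbb : r b b'' := by simpa using hb'' 0
  have hbb' : r b' b'' := by simpa using hb'' 1
  have htr : ∀ x y z, r x y → r y z → r x z := fun x y z => _root_.trans
  obtain ⟨α, hα, ht, hc⟩ := htau (D, s) σ₀ b''
  refine ⟨α, hc, fun n => htr _ _ _ (hb n) (htr _ _ _ hbb hα), ?_⟩
  have hDα : ∀ σ, r (D σ) α := by
    intro σ
    obtain ⟨n, rfl⟩ := he σ
    exact htr _ _ _ (hb' n) (htr _ _ _ hbb' hα)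
  have := h2 α
  rw [ht] at this
  exact this hD hDα

end Pool.Agent.Lib.MP_45c416_gt.C
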