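import Pool.Agent.Lib.MP_45c416_gt.C.Defs

open Set Filter Topology Cardinal

namespace Pool.Agent.Lib.MP_45c416_gt.C

theorem Wo_aux (α : Type) (h : #α = 𝔠) : ∃ r : α → α → Prop, IsWellOrder α r ∧
    (∀ a : ℕ → α, ∃ b, ∀ n, r (a n) b) ∧ ∀ b, #{x // ¬ r b x} < 𝔠 := by
  obtain ⟨lo, wf, hα⟩ := exists_ord_eq_type_lt α
  refine ⟨(· < ·), inferInstance, ?_, ?_⟩
  · intro a
    by_contra hcon
    push Not at hcon
    have hcof : IsCofinal (range a) := by
      intro b
      obtain ⟨n, hn⟩ := hcon b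
      exact ⟨a n, mem_range_self n, hn⟩
    have h1 : Order.cof α ≤ ℵ₀ := (Order.cof_le hcof).trans (mk_range_le.trans (by simp))
    have h2 : ℵ₀ < Order.cof α := by
      rw [← Ordinal.cof_type, ← hα, h, ← two_power_aleph0]
      exact lt_cof_ord_power le_rfl (by norm_num)
    exact absurd h1 (not_le.mpr h2)
  · intro b
    have h1 : #(Iio b) < #α := mk_Iio_lt b hα
    have h2 : #{x // ¬ b < x} ≤ #(Iio b) + 1 := by
      have : {x | ¬ b < x} = Iio b ∪ {b} := by
        ext x
        simp only [mem_setOf_eq, not_lt, mem_union, mem_Iio, mem_singleton_iff]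
        exact le_iff_lt_or_eq
      calc #{x // ¬ b < x} = #({x | ¬ b < x} : Set α) := rfl
        _ = #(Iio b ∪ {b} : Set α) := by rw [this]
        _ ≤ #(Iio b) + #({b} : Set α) := mk_union_le _ _
        _ = #(Iio b) + 1 := by simp
    rw [h] at h1
    exact h2.trans_lt (add_lt_of_lt aleph0_le_continuum h1
      (one_lt_aleph0.trans_le aleph0_le_continuum))

theorem Wo_card_R2 : #R2 = 𝔠 := by
  simp [R2]

theorem Wo_card_T : #((List Bool → R2) × (List Bool → Circle)) ≤ 𝔠 := by
  have h1 : #(List Bool → R2) = 𝔠 := by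
    rw [← Cardinal.power_def, Wo_card_R2]
    simp
  have h2 : #(List Bool → Circle) ≤ 𝔠 := by
    rw [← Cardinal.power_def]
    have h3 : #Circle ≤ 𝔠 := by
      have := Cardinal.mk_subtype_le (fun z : ℂ => z ∈ Submonoid.unitSphere ℂ)
      rw [mk_complex] at this
      exact this
    calc #Circle ^ #(List Bool) ≤ 𝔠 ^ #(List Bool) := power_le_power_right h3
      _ = 𝔠 := by simp
  rw [mk_prod, lift_id, lift_id, h1]
  calc 𝔠 * #(List Bool → Circle) ≤ 𝔠 * 𝔠 := by gcongr
    _ = 𝔠 := by simp

/-- limits of columns -/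
noncomputable def Wo_h (b : R2) : R2 := by
  classical
  exact fun m => decide (∃ J : ℕ, ∀ j ≥ J, b (Nat.pair m j) = true)

/-- points with given column limits in a given cylinder -/
def Wo_pt (σ : List Bool) (t c : R2) : R2 := fun i =>
  if h : i < σ.length then σ[i] else
    if (Nat.unpair i).2 = σ.length then c (Nat.unpair i).1 else t (Nat.unpair i).1

theorem Wo_pt_cyl (σ : List Bool) (t c : R2) : Cyl σ (Wo_pt σ t c) := by
  unfold Cyl rs
  apply List.ext_getElem
  · simp
  · intro i h1 h2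
    simp [Wo_pt, h2]

theorem Wo_h_pt (σ : List Bool) (t c : R2) : Wo_h (Wo_pt σ t c) = t := by
  funext m
  have key : ∀ j > σ.length, Wo_pt σ t c (Nat.pair m j) = t m := by
    intro j hj
    have h1 : ¬ Nat.pair m j < σ.length := by
      have := Nat.right_le_pair m j
      omega
    unfold Wo_pt
    rw [dif_neg h1]
    simp only [Nat.unpair_pair]
    rw [if_neg (by omega)]
  unfold Wo_h
  by_cases ht : t m = true
  · rw [ht]
    simp only [decide_eq_true_eq]
    exact ⟨σ.length + 1, fun j hj => by rw [key j (by omega), ht]⟩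
  · have ht' : t m = false := by simpa using ht
    rw [ht']
    simp only [decide_eq_false_iff_not, not_exists]
    intro J hJ
    have h1 := hJ (max J (σ.length + 1)) (le_max_left _ _)
    rw [key _ (by omega), ht'] at h1
    exact absurd h1 (by simp)

theorem Wo_pt_inj (σ : List Bool) (t : R2) : Function.Injective (Wo_pt σ t) := by
  intro c c' h
  funext m
  have h1 := congrFun h (Nat.pair m σ.length)
  have h2 : ¬ Nat.pair m σ.length < σ.length := by
    have := Nat.right_le_pair m σ.length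
    omega
  unfold Wo_pt at h1
  rw [dif_neg h2, dif_neg h2] at h1
  simpa using h1

theorem exists_wo : ∃ r : R2 → R2 → Prop, IsWellOrder R2 r ∧
    (∀ a : ℕ → R2, ∃ b, ∀ n, r (a n) b) ∧
    ∃ tau : R2 → (List Bool → R2) × (List Bool → Circle),
      ∀ (t : (List Bool → R2) × (List Bool → Circle)) (σ : List Bool) (b : R2),
        ∃ α, r b α ∧ tau α = t ∧ Cyl σ α := by
  classical
  obtain ⟨r, hr, hB, hC⟩ := Wo_aux R2 Wo_card_R2
  refine ⟨r, hr, hB, ?_⟩
  have hle : #((List Bool → R2) × (List Bool → Circle)) ≤ #R2 := by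
    rw [Wo_card_R2]
    exact Wo_card_T
  obtain ⟨e⟩ := Cardinal.le_def _ _ |>.mp hle
  have hsurj : Function.Surjective (Function.invFun e) := Function.invFun_surjective e.injective
  refine ⟨fun α => Function.invFun e (Wo_h α), ?_⟩
  intro t σ b
  obtain ⟨t', ht'⟩ := hsurj t
  by_contra hcon
  push Not at hcon
  have hall : ∀ c : R2, ¬ r b (Wo_pt σ t' c) := by
    intro c hc
    exact hcon _ hc (by rw [Wo_h_pt]; exact ht') (Wo_pt_cyl σ t' c)
  have h1 : #R2 ≤ #{x // ¬ r b x} := by
    apply Cardinal.mk_le_of_injective (f := fun c : R2 => (⟨Wo_pt σ t' c, hall c⟩ : {x // ¬ r b x}))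
    intro c c' h
    exact Wo_pt_inj σ t' (Subtype.ext_iff.mp h)
  rw [Wo_card_R2] at h1
  exact absurd (hC b) (not_lt.mpr h1)

end Pool.Agent.Lib.MP_45c416_gt.C
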